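import Pool.Agent.R59.DA.Stm

/-!
# Project DA, piece DET: a good sample has a colouring that is not refuted
-/

namespace R59.DA

open Classical

namespace DetAux

theorem card_sum_filter {u q : ℕ} (P : Fin u ⊕ (Fin q ⊕ Fin q) → Prop) :
    (Finset.univ.filter P).card = (Finset.univ.filter (fun j : Fin u => P (Sum.inl j))).card +
      ((Finset.univ.filter (fun j : Fin q => P (Sum.inr (Sum.inl j)))).card +
        (Finset.univ.filter (fun j : Fin q => P (Sum.inr (Sum.inr j)))).card) := by
  simp only [Finset.card_filter, Fintype.sum_sum_type]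

/-- uniqueness of the unseen colour -/
theorem uniq {k u : ℕ} {V : Type} (D : V → V → Prop) (p : ℝ) (s : Fin u → V)
    (φ : Fin u → Fin (k + 1)) (hk : 1 ≤ k) (hu : 1 ≤ u)
    (hp : (3 * (k : ℝ) - 1) / (3 * (k : ℝ) + 2) < p)
    (h1 : ∀ v, p * u ≤ ((Finset.univ.filter (fun j : Fin u => D v (s j))).card : ℝ))
    (hφ : ∀ i j : Fin u, D (s i) (s j) → φ i ≠ φ j)
    (v : V) (d d' : Fin (k + 1)) (hd : d ∉ seen D s φ v) (hd' : d' ∉ seen D s φ v) : d = d' := by
  by_contra hne
  have hu0 : (0 : ℝ) < u := by exact_mod_cast hu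
  have hk0 : (1 : ℝ) ≤ k := by exact_mod_cast hk
  -- classes are small
  have hclass : ∀ e : Fin (k + 1),
      ((Finset.univ.filter (fun j : Fin u => φ j = e)).card : ℝ) ≤ (1 - p) * u := by
    intro e
    by_cases hne : (Finset.univ.filter (fun j : Fin u => φ j = e)).Nonempty
    · obtain ⟨j0, hj0⟩ := hne
      have hj0' : φ j0 = e := (Finset.mem_filter.mp hj0).2
      have h2 := h1 (s j0)
      have h3 : (Finset.univ.filter (fun j : Fin u => φ j = e)).card +
          (Finset.univ.filter (fun j : Fin u => D (s j0) (s j))).card ≤ u := by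
        rw [← Finset.card_union_of_disjoint]
        · calc _ ≤ (Finset.univ : Finset (Fin u)).card := Finset.card_le_card (Finset.subset_univ _)
            _ = u := by simp
        · rw [Finset.disjoint_left]
          intro j hj hj'
          exact hφ j0 j (Finset.mem_filter.mp hj').2
            (hj0'.trans (Finset.mem_filter.mp hj).2.symm)
      have h4 : ((Finset.univ.filter (fun j : Fin u => φ j = e)).card : ℝ) +
          ((Finset.univ.filter (fun j : Fin u => D (s j0) (s j))).card : ℝ) ≤ u := by
        exact_mod_cast h3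
      linarith
    · rw [Finset.not_nonempty_iff_eq_empty] at hne
      rw [hne]
      simp only [Finset.card_empty, Nat.cast_zero]
      have h2 := h1 v
      have h3 : ((Finset.univ.filter (fun j : Fin u => D v (s j))).card : ℝ) ≤ u := by
        have : (Finset.univ.filter (fun j : Fin u => D v (s j))).card ≤ u := by
          calc _ ≤ (Finset.univ : Finset (Fin u)).card := Finset.card_le_card (Finset.subset_univ _)
            _ = u := by simp
        exact_mod_cast this
      nlinarith
  -- the out-neighbours of `v` lie in the other classes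
  have h5 : (Finset.univ.filter (fun j : Fin u => D v (s j))).card ≤
      ∑ e ∈ (Finset.univ : Finset (Fin (k + 1))) \ {d, d'},
        (Finset.univ.filter (fun j : Fin u => φ j = e)).card := by
    calc (Finset.univ.filter (fun j : Fin u => D v (s j))).card
        ≤ (((Finset.univ : Finset (Fin (k + 1))) \ {d, d'}).biUnion
          (fun e => Finset.univ.filter (fun j : Fin u => φ j = e))).card := by
          apply Finset.card_le_card
          intro j hj
          have hj' := (Finset.mem_filter.mp hj).2
          rw [Finset.mem_biUnion]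
          refine ⟨φ j, ?_, Finset.mem_filter.mpr ⟨Finset.mem_univ _, rfl⟩⟩
          rw [Finset.mem_sdiff, Finset.mem_insert, Finset.mem_singleton]
          refine ⟨Finset.mem_univ _, ?_⟩
          rintro (h | h)
          · exact hd (Finset.mem_filter.mpr ⟨Finset.mem_univ _, j, hj', h⟩)
          · exact hd' (Finset.mem_filter.mpr ⟨Finset.mem_univ _, j, hj', h⟩)
      _ ≤ _ := Finset.card_biUnion_le
  have h6 : (((Finset.univ : Finset (Fin (k + 1))) \ {d, d'}).card : ℝ) = k - 1 := by
    have h7 : ((Finset.univ : Finset (Fin (k + 1))) \ {d, d'}).card + 2 = k + 1 := by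
      rw [← Finset.card_pair hne, Finset.card_sdiff_add_card_eq_card (Finset.subset_univ _)]
      simp
    have h8 : (((Finset.univ : Finset (Fin (k + 1))) \ {d, d'}).card : ℝ) + 2 = k + 1 := by
      exact_mod_cast h7
    linarith
  have h9 : ((Finset.univ.filter (fun j : Fin u => D v (s j))).card : ℝ) ≤
      (k - 1) * ((1 - p) * u) := by
    calc ((Finset.univ.filter (fun j : Fin u => D v (s j))).card : ℝ)
        ≤ ∑ e ∈ (Finset.univ : Finset (Fin (k + 1))) \ {d, d'},
        ((Finset.univ.filter (fun j : Fin u => φ j = e)).card : ℝ) := by exact_mod_cast h5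
      _ ≤ ∑ _e ∈ (Finset.univ : Finset (Fin (k + 1))) \ {d, d'}, (1 - p) * (u : ℝ) :=
          Finset.sum_le_sum fun e _ => hclass e
      _ = (k - 1) * ((1 - p) * u) := by rw [Finset.sum_const, nsmul_eq_mul, h6]
  have h10 := (h1 v).trans h9
  have h11 : p ≤ (k - 1) * (1 - p) := by
    have : p * u ≤ ((k - 1) * (1 - p)) * u := by linarith
    exact le_of_mul_le_mul_right this hu0
  rw [div_lt_iff₀ (by linarith)] at hp
  nlinarith

end DetAux

open DetAux in
theorem det (h : SAES) : SDET := by
  intro k u q V D p _ s w hk hirr hu hp hT h1 h2 h3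
  have hk0 : (1 : ℝ) ≤ k := by exact_mod_cast hk
  obtain ⟨c, hc⟩ := h k (Fin u ⊕ (Fin q ⊕ Fin q)) (fun i j => D (samp s w i) (samp s w j))
    Finset.univ (fun i => hirr _) (by
      rintro ⟨f, -, hf⟩
      exact hT ⟨f, hf⟩) (by
      intro i _
      have e1 : ((Finset.univ : Finset (Fin u ⊕ (Fin q ⊕ Fin q))).card : ℝ) = u + (q + q) := by
        simp
      have e2 : ((outIn (fun i j => D (samp s w i) (samp s w j)) Finset.univ i).card : ℝ) =
          ((Finset.univ.filter (fun j : Fin u => D (samp s w i) (s j))).card : ℝ) +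
          (((Finset.univ.filter (fun j : Fin q => D (samp s w i) (w j).1)).card : ℝ) +
          ((Finset.univ.filter (fun j : Fin q => D (samp s w i) (w j).2)).card : ℝ)) := by
        have := card_sum_filter (u := u) (q := q) (fun j => D (samp s w i) (samp s w j))
        unfold outIn
        exact_mod_cast this
      rw [e1, e2]
      have g1 := h1 (samp s w i)
      have g2 := h2 (samp s w i)
      have g3 := h3 (samp s w i)
      have hu0 : (0 : ℝ) < u := by exact_mod_cast hu
      have hq0 : (0 : ℝ) ≤ q := Nat.cast_nonneg q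
      rw [div_lt_iff₀ (by linarith)] at hp
      have g4 : (3 * (k : ℝ) - 1) * (u + (q + q)) < (p * (3 * k + 2)) * (u + (q + q)) :=
        mul_lt_mul_of_pos_right hp (by linarith)
      have g5 : (3 * (k : ℝ) + 2) * (p * u + (p * q + p * q)) ≤ (3 * (k : ℝ) + 2) *
          (((Finset.univ.filter (fun j : Fin u => D (samp s w i) (s j))).card : ℝ) +
          (((Finset.univ.filter (fun j : Fin q => D (samp s w i) (w j).1)).card : ℝ) +
          ((Finset.univ.filter (fun j : Fin q => D (samp s w i) (w j).2)).card : ℝ))) :=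
        mul_le_mul_of_nonneg_left (by linarith) (by linarith)
      linarith)
  have hc' : ∀ i j : Fin u ⊕ (Fin q ⊕ Fin q), D (samp s w i) (samp s w j) → c i ≠ c j :=
    fun i j hij => hc i (Finset.mem_univ _) j (Finset.mem_univ _) hij
  set φ : Fin u → Fin (k + 1) := fun j => c (Sum.inl j) with hφ
  have hns : ∀ i, c i ∉ seen D s φ (samp s w i) := by
    intro i hi
    obtain ⟨j, hj1, hj2⟩ := (Finset.mem_filter.mp hi).2
    exact hc' i (Sum.inl j) hj1 hj2.symm
  have hun : ∀ v (d d' : Fin (k + 1)), d ∉ seen D s φ v → d' ∉ seen D s φ v → d = d' :=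
    uniq D p s φ hk hu hp h1 (fun i j hij => hc' (Sum.inl i) (Sum.inl j) hij)
  have hcol : ∀ i, col D s φ (samp s w i) = c i := by
    intro i
    have hex : ∃ d, d ∉ seen D s φ (samp s w i) := ⟨c i, hns i⟩
    have h4 : col D s φ (samp s w i) = Classical.choose hex := dif_pos hex
    rw [h4]
    exact hun _ _ _ (Classical.choose_spec hex) (hns i)
  refine ⟨φ, fun j hj => ?_⟩
  have hx : (w j).1 = samp s w (Sum.inr (Sum.inl j)) := rfl
  have hy : (w j).2 = samp s w (Sum.inr (Sum.inr j)) := rfl
  rcases (Finset.mem_filter.mp hj).2 with h5 | ⟨h5, -, -, h6⟩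
  · apply hns (Sum.inr (Sum.inl j))
    rw [← hx, h5]
    exact Finset.mem_univ _
  · rw [hx, hy, hcol, hcol] at h6
    exact hc' (Sum.inr (Sum.inl j)) (Sum.inr (Sum.inr j)) h5 h6

end R59.DA
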