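import Pool.Agent.R623.AF.Stm

/-!
Piece DEN of project AF (problem MP_ef6a16_nt): an integer divisible by a high power of a prime
has a large norm.
-/

set_option autoImplicit false

namespace Pool.Agent.R623.AF

open NumberField IsDedekindDomain

/-- DEN -/
theorem DEN : S_DEN := by
  intro K _ _ v s n hs hint hv
  set s' : 𝓞 K := ⟨s, hint⟩ with hs'
  have hss : algebraMap (𝓞 K) K s' = s := rfl
  have hs0 : s' ≠ 0 := by
    intro h
    apply hs
    rw [← hss, h, map_zero]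
  rw [← hss, HeightOneSpectrum.valuation_of_algebraMap,
    HeightOneSpectrum.intValuation_le_pow_iff_dvd] at hv
  have h1 := Ideal.absNorm_dvd_absNorm_of_le (Ideal.le_of_dvd hv)
  rw [map_pow, Ideal.absNorm_span_singleton] at h1
  have h2 : 2 ≤ Ideal.absNorm v.asIdeal := by
    have h3 : Ideal.absNorm v.asIdeal ≠ 0 := by
      rw [Ne, Ideal.absNorm_eq_zero_iff]
      exact v.ne_bot
    have h4 : Ideal.absNorm v.asIdeal ≠ 1 := by
      rw [Ne, Ideal.absNorm_eq_one_iff]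
      exact v.isPrime.ne_top
    omega
  have h5 : (Algebra.norm ℤ s').natAbs ≠ 0 := by
    rw [Ne, Int.natAbs_eq_zero, Algebra.norm_eq_zero_iff]
    exact hs0
  have h6 : 2 ^ n ≤ (Algebra.norm ℤ s').natAbs :=
    (Nat.pow_le_pow_left h2 n).trans (Nat.le_of_dvd (Nat.pos_of_ne_zero h5) h1)
  have h7 : ∏ σ : K →+* ℂ, ‖σ s‖ = (((Algebra.norm ℤ s').natAbs : ℕ) : ℝ) := by
    have h8 := Algebra.norm_eq_prod_embeddings ℚ ℂ s
    have h9 : ∏ σ : K →+* ℂ, ‖σ s‖ = ∏ σ : K →ₐ[ℚ] ℂ, ‖σ s‖ :=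
      Fintype.prod_equiv (RingHom.equivRatAlgHom K ℂ) _ _ fun σ => rfl
    rw [h9, ← norm_prod, ← h8]
    have h10 : Algebra.norm ℚ s = ((Algebra.norm ℤ s' : ℤ) : ℚ) := (Algebra.coe_norm_int s').symm
    rw [h10, Nat.cast_natAbs]
    simp
  rw [h7]
  exact_mod_cast h6

end Pool.Agent.R623.AF
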