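import Pool.Agent.R974.BW.Defs

/-!
Piece CON of project BW (MP_0f8574_pr): construction of the random time for a window density.
-/

set_option autoImplicit false

namespace Pool.Agent.R676.BW

open MeasureTheory ProbabilityTheory Filter Topology Set
open Pool.Agent.R967.FB Pool.Agent.R974.BW
open scoped ENNReal NNReal

/-- twice the integral over the first half unit of time -/
noncomputable def ZF (φ : Pth → ℝ≥0∞) (v : Pth) : ℝ≥0∞ :=
  2 * ∫⁻ t in Icc (0 : ℝ) (1 / 2), φ (shift t.toNNReal v)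

theorem meas_shr (hS : S_SHC) (c : ℝ≥0) :
    Measurable (fun p : Pth × ℝ => shift (c + p.2.toNNReal) p.1) :=
  (Continuous.measurable hS).comp
    (measurable_fst.prodMk (measurable_const.add measurable_snd.real_toNNReal))

theorem meas_inner (hS : S_SHC) (c : ℝ≥0) {φ : Pth → ℝ≥0∞} (hφ : Measurable φ) :
    Measurable (fun w : Pth => ∫⁻ t in Icc (0 : ℝ) (1 / 2), φ (shift (c + t.toNNReal) w)) :=
  Measurable.lintegral_prod_right' (f := fun p : Pth × ℝ => φ (shift (c + p.2.toNNReal) p.1))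
    (hφ.comp (meas_shr hS c))

theorem meas_ZF (hS : S_SHC) {φ : Pth → ℝ≥0∞} (hφ : Measurable φ) : Measurable (ZF φ) := by
  have h := (meas_inner hS 0 hφ).const_mul 2
  simp only [zero_add] at h
  exact h

theorem meas_blk (i : ℕ) : Measurable (blk i) := by
  have h : Measurable (stp 3) := measurable_path fun t => measurable_eval (min t 3)
  exact h.comp (measurable_shift _)

theorem loc_blk {φ : Pth → ℝ≥0∞} (hφ : Loc φ) (i : ℕ) (w : Pth) {t : ℝ≥0} (ht : t ≤ 1) :
    φ (shift (3 * i + t) w) = φ (shift t (blk i w)) := by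
  apply hφ
  intro s hs
  have h0 : t + s ≤ 3 := by
    calc t + s ≤ 1 + 1 := add_le_add ht hs
      _ ≤ 3 := by norm_num
  have h1 : min (t + s) 3 = t + s := min_eq_left h0
  have h2 : min t 3 = t := min_eq_left (le_self_add.trans h0)
  simp only [blk, stp, shift_apply, ContinuousMap.coe_mk, h1, h2]
  rw [add_assoc]
  ring

theorem ZF_blk {φ : Pth → ℝ≥0∞} (hφ : Loc φ) (i : ℕ) (w : Pth) :
    2 * ∫⁻ t in Icc (0 : ℝ) (1 / 2), φ (shift (3 * i + t.toNNReal) w) = ZF φ (blk i w) := by
  unfold ZF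
  congr 1
  refine setLIntegral_congr_fun measurableSet_Icc fun t ht => ?_
  apply loc_blk hφ
  rw [Real.toNNReal_le_one]
  linarith [ht.2]

theorem half_vol : (volume : Measure ℝ) (Icc (0 : ℝ) (1 / 2)) = 2⁻¹ := by
  rw [Real.volume_Icc, sub_zero, one_div, ENNReal.ofReal_inv_of_pos (by norm_num)]
  simp

theorem two_half (c : ℝ≥0∞) : 2 * (c * 2⁻¹) = c := by
  rw [mul_comm c, ← mul_assoc, ENNReal.mul_inv_cancel (by norm_num) (by norm_num), one_mul]

theorem ZF_le {φ : Pth → ℝ≥0∞} {b : ℝ≥0∞} (h : ∀ w, φ w ≤ b) (v : Pth) : ZF φ v ≤ b := by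
  unfold ZF
  calc 2 * ∫⁻ t in Icc (0 : ℝ) (1 / 2), φ (shift t.toNNReal v)
      ≤ 2 * ∫⁻ _ in Icc (0 : ℝ) (1 / 2), b := by gcongr; exact h _
    _ = b := by rw [setLIntegral_const, half_vol, two_half]

theorem ZF_mean (hS : S_SHC) {W : Measure Pth} (hW : IsWiener W) {φ : Pth → ℝ≥0∞}
    (hφ : Measurable φ) (hL : Loc φ) : ∫⁻ v, ZF φ v ∂(W.map (blk 0)) = ∫⁻ w, φ w ∂W := by
  have : IsProbabilityMeasure W := hW.isGaussianProcess.isProbabilityMeasure
  rw [lintegral_map (meas_ZF hS hφ) (meas_blk 0)]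
  have h1 : ∀ w, ZF φ (blk 0 w) = 2 * ∫⁻ t in Icc (0 : ℝ) (1 / 2), φ (shift t.toNNReal w) := by
    intro w
    rw [← ZF_blk hL 0 w]
    simp
  simp_rw [h1]
  rw [lintegral_const_mul _ (by simpa only [zero_add] using meas_inner hS 0 hφ)]
  rw [lintegral_lintegral_swap]
  · have h2 : ∀ t : ℝ, ∫⁻ w, φ (shift t.toNNReal w) ∂W = ∫⁻ w, φ w ∂W := by
      intro t
      conv_rhs => rw [← map_shift hW t.toNNReal]
      rw [lintegral_map hφ (measurable_shift _)]
    simp_rw [h2]
    rw [setLIntegral_const, half_vol, two_half]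
  · have h := hφ.comp (meas_shr hS 0)
    simp only [zero_add] at h
    exact h.aemeasurable

theorem pi_update {N : ℕ} {E : Type*} [MeasurableSpace E] (μ : Measure E)
    [IsProbabilityMeasure μ] (i : Fin N) :
    Measurable (fun p : E × (Fin N → E) => Function.update p.2 i p.1) ∧
    (μ.prod (Measure.pi fun _ : Fin N => μ)).map (fun p => Function.update p.2 i p.1) =
      Measure.pi fun _ => μ := by
  have hm : Measurable (fun p : E × (Fin N → E) => Function.update p.2 i p.1) := by
    rw [measurable_pi_iff]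
    intro j
    by_cases h : j = i
    · subst h
      simp only [Function.update_self]
      exact measurable_fst
    · simp only [Function.update_of_ne h]
      exact (measurable_pi_apply j).comp measurable_snd
  refine ⟨hm, ?_⟩
  symm
  apply Measure.pi_eq
  intro s hs
  rw [Measure.map_apply hm (MeasurableSet.univ_pi hs)]
  have h : (fun p : E × (Fin N → E) => Function.update p.2 i p.1) ⁻¹' (Set.pi Set.univ s) =
      s i ×ˢ Set.pi Set.univ (Function.update s i Set.univ) := by
    ext ⟨v, y⟩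
    simp only [mem_preimage, Set.mem_pi, mem_univ, true_implies, Set.mem_prod]
    constructor
    · intro h
      refine ⟨by simpa using h i, fun j => ?_⟩
      by_cases hj : j = i
      · subst hj; simp
      · rw [Function.update_of_ne hj]
        have := h j
        rwa [Function.update_of_ne hj] at this
    · rintro ⟨h1, h2⟩ j
      by_cases hj : j = i
      · subst hj; simpa using h1
      · have := h2 j
        rw [Function.update_of_ne hj] at this ⊢
        exact this
  rw [h, Measure.prod_prod, Measure.pi_pi,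
    ← Finset.mul_prod_erase Finset.univ (fun j => μ (Function.update s i Set.univ j))
      (Finset.mem_univ i),
    ← Finset.mul_prod_erase Finset.univ (fun j => μ (s j)) (Finset.mem_univ i)]
  rw [Function.update_self, measure_univ, one_mul]
  congr 1
  refine Finset.prod_congr rfl fun j hj => ?_
  rw [Function.update_of_ne (Finset.ne_of_mem_erase hj)]

theorem lint_update {N : ℕ} {E : Type*} [MeasurableSpace E] (μ : Measure E)
    [IsProbabilityMeasure μ] (i : Fin N) {Φ : (Fin N → E) → ℝ≥0∞} (hΦ : Measurable Φ)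
    {ψ : E → ℝ≥0∞} (hψ : Measurable ψ) :
    ∫⁻ y, Φ y * ψ (y i) ∂(Measure.pi fun _ : Fin N => μ) =
      ∫⁻ v, (∫⁻ y, Φ (Function.update y i v) ∂(Measure.pi fun _ : Fin N => μ)) * ψ v ∂μ := by
  obtain ⟨hm, he⟩ := pi_update μ i
  have hΨ : Measurable (fun y : Fin N → E => Φ y * ψ (y i)) :=
    hΦ.mul (hψ.comp (measurable_pi_apply i))
  have hΨm : Measurable (fun p : E × (Fin N → E) =>
      Φ (Function.update p.2 i p.1) * ψ (Function.update p.2 i p.1 i)) := hΨ.comp hm
  conv_lhs => rw [← he]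
  rw [lintegral_map hΨ hm, lintegral_prod _ hΨm.aemeasurable]
  refine lintegral_congr fun v => ?_
  simp only [Function.update_self]
  rw [lintegral_mul_const]
  exact hΦ.comp (hm.comp (measurable_const.prodMk measurable_id))

/-- the measure of the construction -/
noncomputable def Gam {N : ℕ} (W : Measure Pth) (k : Fin N → Pth → ℝ≥0∞) (f : Pth → ℝ≥0∞)
    (R : Pth → ℝ≥0∞) : Measure (Pth × ℝ≥0) :=
  (∑ i : Fin N, ((W.prod (volume.restrict (Icc (0 : ℝ) (1 / 2)))).withDensity
    (fun p => k i p.1 * (2 * f (shift (3 * ((i : ℕ) : ℝ≥0) + p.2.toNNReal) p.1)))).map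
      (fun p : Pth × ℝ => (p.1, 3 * ((i : ℕ) : ℝ≥0) + p.2.toNNReal))) +
  (W.withDensity R).map (fun w => (w, (0 : ℝ≥0)))

theorem lint_Gam (hS : S_SHC) {N : ℕ} (W : Measure Pth) [IsProbabilityMeasure W]
    (k : Fin N → Pth → ℝ≥0∞) (hk : ∀ i, Measurable (k i)) (f : Pth → ℝ≥0∞) (hf : Measurable f)
    (R : Pth → ℝ≥0∞) (hR : Measurable R) (G : Pth × ℝ≥0 → ℝ≥0∞) (hG : Measurable G) :
    ∫⁻ p, G p ∂(Gam W k f R) =
      (∑ i : Fin N, ∫⁻ w, k i w * (2 * ∫⁻ t in Icc (0 : ℝ) (1 / 2),
        f (shift (3 * ((i : ℕ) : ℝ≥0) + t.toNNReal) w) *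
          G (w, 3 * ((i : ℕ) : ℝ≥0) + t.toNNReal)) ∂W) + ∫⁻ w, R w * G (w, 0) ∂W := by
  have hT : ∀ c : ℝ≥0, Measurable (fun p : Pth × ℝ => (p.1, c + p.2.toNNReal)) := fun c =>
    measurable_fst.prodMk (measurable_const.add measurable_snd.real_toNNReal)
  unfold Gam
  rw [lintegral_add_measure, lintegral_finsetSum_measure]
  congr 1
  · refine Finset.sum_congr rfl fun i _ => ?_
    have hD : Measurable (fun p : Pth × ℝ =>
        k i p.1 * (2 * f (shift (3 * ((i : ℕ) : ℝ≥0) + p.2.toNNReal) p.1))) :=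
      ((hk i).comp measurable_fst).mul ((hf.comp (meas_shr hS _)).const_mul 2)
    have hG' : Measurable (fun p : Pth × ℝ => G (p.1, 3 * ((i : ℕ) : ℝ≥0) + p.2.toNNReal)) :=
      hG.comp (hT _)
    have hDG : Measurable (fun p : Pth × ℝ =>
        k i p.1 * (2 * f (shift (3 * ((i : ℕ) : ℝ≥0) + p.2.toNNReal) p.1)) *
          G (p.1, 3 * ((i : ℕ) : ℝ≥0) + p.2.toNNReal)) := hD.mul hG'
    rw [lintegral_map hG (hT _), lintegral_withDensity_eq_lintegral_mul _ hD hG']
    simp only [Pi.mul_apply]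
    rw [lintegral_prod _ hDG.aemeasurable]
    refine lintegral_congr fun w => ?_
    have hsec : Measurable (fun t : ℝ => f (shift (3 * ((i : ℕ) : ℝ≥0) + t.toNNReal) w) *
          G (w, 3 * ((i : ℕ) : ℝ≥0) + t.toNNReal)) :=
      ((hf.comp (meas_shr hS _)).comp measurable_prodMk_left).mul
        ((hG.comp (hT _)).comp measurable_prodMk_left)
    rw [← lintegral_const_mul _ hsec, ← lintegral_const_mul _ (hsec.const_mul 2)]
    refine lintegral_congr fun t => ?_
    ring
  · have h0 : Measurable (fun w : Pth => (w, (0 : ℝ≥0))) := measurable_id.prodMk measurable_const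
    have hG0 : Measurable (fun w : Pth => G (w, (0 : ℝ≥0))) := hG.comp h0
    rw [lintegral_map hG h0, lintegral_withDensity_eq_lintegral_mul _ hR hG0]
    rfl

theorem t_CON (hI : S_IND) (hE : S_SEL) (hS : S_SHC) : S_CON := by
  intro W hW A
  have hWp : IsProbabilityMeasure W := hW.isGaussianProcess.isProbabilityMeasure
  obtain ⟨C0, hC0⟩ := hE (4 * A)
  refine ⟨C0.toNNReal, ?_⟩
  intro f b hf hfb hfL hf1 hf2 δ hδ
  set μ : Measure Pth := W.map (blk 0) with hμ
  have hμp : IsProbabilityMeasure μ := Measure.isProbabilityMeasure_map (meas_blk 0).aemeasurable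
  have hZm : Measurable (ZF f) := meas_ZF hS hf
  have hZb : ∀ v, ZF f v ≤ b := ZF_le hfb
  set z : Pth → ℝ := fun v => (ZF f v).toReal with hz
  have hzm : Measurable z := hZm.ennreal_toReal
  have hz0 : ∀ v, 0 ≤ z v := fun v => ENNReal.toReal_nonneg
  have hZt : ∀ v, ZF f v ≠ ∞ := fun v => ne_top_of_le_ne_top ENNReal.coe_ne_top (hZb v)
  have hzb : ∀ v, z v ≤ b := fun v => ENNReal.toReal_le_coe_of_le_coe (hZb v)
  have hzZ : ∀ v, ENNReal.ofReal (z v) = ZF f v := fun v => ENNReal.ofReal_toReal (hZt v)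
  have hZ1 : ∫⁻ v, ZF f v ∂μ = 1 := (ZF_mean hS hW hf hfL).trans hf1
  set ν : Measure ℝ := μ.map z with hν
  have hνp : IsProbabilityMeasure ν := Measure.isProbabilityMeasure_map hzm.aemeasurable
  have hν1 : ∀ᵐ x ∂ν, 0 ≤ x ∧ x ≤ (b : ℝ) := by
    rw [hν, ae_map_iff hzm.aemeasurable (measurableSet_Icc (a := (0 : ℝ)) (b := (b : ℝ)))]
    exact ae_of_all _ fun v => ⟨hz0 v, hzb v⟩
  have hν2 : ∫ x, x ∂ν = 1 := by
    rw [hν, integral_map hzm.aemeasurable (by fun_prop)]
    rw [integral_toReal hZm.aemeasurable (ae_of_all _ fun v => (hZt v).lt_top), hZ1]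
    simp
  have hν3 : ∫ x, x ^ 2 ∂ν ≤ 4 * A := by
    rw [hν, integral_map hzm.aemeasurable (by fun_prop)]
    have h1 : ∀ v, z v ^ 2 = ((ZF f v) ^ 2).toReal := fun v => by simp [hz, ENNReal.toReal_pow]
    simp_rw [h1]
    rw [integral_toReal (hZm.pow_const 2).aemeasurable
      (ae_of_all _ fun v => ENNReal.pow_lt_top (hZt v).lt_top)]
    have h2 : ∫⁻ v, (ZF f v) ^ 2 ∂μ ≤ 4 * A := by
      rw [hμ, lintegral_map (hZm.pow_const 2) (meas_blk 0)]
      have h3 : ∀ w, ZF f (blk 0 w) ^ 2 =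
          4 * (∫⁻ t in Icc (0 : ℝ) (1 / 2), f (shift t.toNNReal w)) ^ 2 := by
        intro w
        rw [← ZF_blk hfL 0 w, mul_pow]
        congr 1
        · norm_num
        · simp
      simp_rw [h3]
      have h4 : Measurable (fun w : Pth =>
          (∫⁻ t in Icc (0 : ℝ) (1 / 2), f (shift t.toNNReal w)) ^ 2) := by
        have := (meas_inner hS 0 hf).pow_const 2
        simp only [zero_add] at this
        exact this
      rw [lintegral_const_mul _ h4]
      gcongr
    calc (∫⁻ v, ZF f v ^ 2 ∂μ).toReal ≤ (4 * (A : ℝ≥0∞)).toReal :=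
          ENNReal.toReal_mono (by finiteness) h2
      _ = 4 * A := by simp
  obtain ⟨N, κ, hκm, hκ01, hκs, hκg, hκc⟩ := hC0 ν b hνp hν1 hν2 hν3 δ (by exact_mod_cast hδ)
  set Y : Pth → Fin N → Pth := fun w i => blk i w with hYd
  have hYm : Measurable Y := measurable_pi_lambda _ fun i => meas_blk i
  have hY : W.map Y = Measure.pi fun _ : Fin N => μ := hI W hW N
  set k : Fin N → (Fin N → Pth) → ℝ≥0∞ :=
    fun i y => ENNReal.ofReal (κ i (fun j => z (y j))) with hk
  have hzY : Measurable (fun (y : Fin N → Pth) (j : Fin N) => z (y j)) :=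
    measurable_pi_lambda _ fun j => hzm.comp (measurable_pi_apply j)
  have hkm : ∀ i, Measurable (k i) := fun i => ((hκm i).comp hzY).ennreal_ofReal
  have hks : ∀ y : Fin N → Pth, ∑ i, k i y * ZF f (y i) ≤ 1 := by
    intro y
    have h1 : ∀ i, k i y * ZF f (y i) =
        ENNReal.ofReal (κ i (fun j => z (y j)) * z (y i)) := by
      intro i
      rw [ENNReal.ofReal_mul (hκ01 i _).1, hzZ]
    simp_rw [h1]
    rw [← ENNReal.ofReal_sum_of_nonneg (fun i _ => mul_nonneg (hκ01 i _).1 (hz0 _)),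
      ENNReal.ofReal_le_one]
    exact hκs _ fun i => hz0 _
  set γ : Fin N → ℝ → ℝ := fun i x =>
    ∫ z', κ i (Function.update z' i x) ∂(Measure.pi fun _ : Fin N => ν) with hγ
  set G : Fin N → ℝ → ℝ≥0∞ := fun i x =>
    ∫⁻ z', ENNReal.ofReal (κ i (Function.update z' i x)) ∂(Measure.pi fun _ : Fin N => ν) with hG
  have hκum : ∀ i, Measurable (fun p : ℝ × (Fin N → ℝ) => κ i (Function.update p.2 i p.1)) :=
    fun i => (hκm i).comp (pi_update ν i).1
  have hκus : ∀ i x, Measurable (fun z' : Fin N → ℝ => κ i (Function.update z' i x)) :=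
    fun i x => (hκum i).comp measurable_prodMk_left
  have hGm : ∀ i, Measurable (G i) := fun i =>
    Measurable.lintegral_prod_right'
      (f := fun p : ℝ × (Fin N → ℝ) => ENNReal.ofReal (κ i (Function.update p.2 i p.1)))
      (hκum i).ennreal_ofReal
  have hGr : ∀ i x, ENNReal.ofReal (γ i x) = G i x := by
    intro i x
    apply ofReal_integral_eq_lintegral_ofReal
    · apply Integrable.of_bound (C := 1) (hκus i x).aestronglyMeasurable
      refine ae_of_all _ fun z' => ?_
      rw [Real.norm_eq_abs, abs_le]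
      constructor <;> linarith [(hκ01 i (Function.update z' i x)).1,
        (hκ01 i (Function.update z' i x)).2]
    · exact ae_of_all _ fun z' => (hκ01 i _).1
  have hγ0 : ∀ i x, 0 ≤ γ i x := fun i x => integral_nonneg fun z' => (hκ01 i _).1
  have hγm : ∀ i, Measurable (γ i) := by
    intro i
    have : γ i = fun x => (G i x).toReal := by
      funext x
      rw [← hGr, ENNReal.toReal_ofReal (hγ0 i x)]
    rw [this]
    exact (hGm i).ennreal_toReal
  have hGs : ∀ v, ∑ i, G i (z v) ≤ 1 ∧ 1 ≤ ∑ i, G i (z v) + δ := by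
    intro v
    obtain ⟨h1, h2⟩ := hκg (z v) (hz0 v) (hzb v)
    simp_rw [← hGr]
    rw [← ENNReal.ofReal_sum_of_nonneg (fun i _ => hγ0 i _)]
    constructor
    · rw [ENNReal.ofReal_le_one]
      exact h1
    · rw [← ENNReal.ofReal_coe_nnreal (p := δ),
        ← ENNReal.ofReal_add (show (0 : ℝ) ≤ ∑ i, γ i (z v) from
          Finset.sum_nonneg fun i _ => hγ0 i _) δ.coe_nonneg, ENNReal.one_le_ofReal]
      have h2' : 1 - (δ : ℝ) ≤ ∑ i, γ i (z v) := h2
      linarith
  have hJ : ∀ (i : Fin N) (φ : Pth → ℝ≥0∞), Measurable φ →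
      ∫⁻ w, k i (Y w) * ZF φ (blk i w) ∂W = ∫⁻ v, G i (z v) * ZF φ v ∂μ := by
    intro i φ hφ
    have hφm := meas_ZF hS hφ
    have h1 : Measurable (fun y : Fin N → Pth => k i y * ZF φ (y i)) :=
      (hkm i).mul (hφm.comp (measurable_pi_apply i))
    calc ∫⁻ w, k i (Y w) * ZF φ (blk i w) ∂W
        = ∫⁻ y, k i y * ZF φ (y i) ∂(W.map Y) := (lintegral_map h1 hYm).symm
      _ = ∫⁻ y, k i y * ZF φ (y i) ∂(Measure.pi fun _ : Fin N => μ) := by rw [hY]
      _ = ∫⁻ v, (∫⁻ y, k i (Function.update y i v) ∂(Measure.pi fun _ : Fin N => μ)) *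
          ZF φ v ∂μ := lint_update μ i (hkm i) hφm
      _ = _ := by
        refine lintegral_congr fun v => ?_
        congr 1
        have h2 : (Measure.pi fun _ : Fin N => μ).map (fun y j => z (y j)) =
            Measure.pi fun _ : Fin N => ν := Measure.pi_map_pi (fun _ => hzm.aemeasurable)
        have h3 : G i (z v) = ∫⁻ z', ENNReal.ofReal (κ i (Function.update z' i (z v)))
          ∂(Measure.pi fun _ : Fin N => ν) := rfl
        rw [h3, ← h2, lintegral_map (hκus i (z v)).ennreal_ofReal hzY]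
        refine lintegral_congr fun y => ?_
        simp only [hk]
        congr 2
        funext j
        by_cases hj : j = i
        · subst hj
          simp
        · simp [Function.update_of_ne hj]
  have hJs : ∀ φ : Pth → ℝ≥0∞, Measurable φ → Loc φ →
      (∑ i, ∫⁻ v, G i (z v) * ZF φ v ∂μ ≤ ∫⁻ w, φ w ∂W) ∧
      (∫⁻ w, φ w ∂W ≤ ∑ i, ∫⁻ v, G i (z v) * ZF φ v ∂μ + δ * ∫⁻ w, φ w ∂W) := by
    intro φ hφ hL
    have hφm := meas_ZF hS hφ
    have h0 : ∫⁻ w, φ w ∂W = ∫⁻ v, ZF φ v ∂μ := (ZF_mean hS hW hφ hL).symm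
    have h1 : ∑ i, ∫⁻ v, G i (z v) * ZF φ v ∂μ = ∫⁻ v, (∑ i, G i (z v)) * ZF φ v ∂μ := by
      have hGZ : ∀ i : Fin N, Measurable (fun v => G i (z v) * ZF φ v) := fun i =>
        ((hGm i).comp hzm).mul hφm
      rw [← lintegral_finsetSum _ (fun i _ => hGZ i)]
      refine lintegral_congr fun v => ?_
      rw [Finset.sum_mul]
    have hsm : Measurable (fun v => (∑ i, G i (z v)) * ZF φ v) :=
      (Finset.measurable_sum _ fun i _ => (hGm i).comp hzm).mul hφm
    rw [h1, h0]
    constructor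
    · refine lintegral_mono fun v => ?_
      calc (∑ i, G i (z v)) * ZF φ v ≤ 1 * ZF φ v := by gcongr; exact (hGs v).1
        _ = _ := one_mul _
    · rw [← lintegral_const_mul _ hφm, ← lintegral_add_left hsm]
      refine lintegral_mono fun v => ?_
      rw [← add_mul]
      calc ZF φ v = 1 * ZF φ v := (one_mul _).symm
        _ ≤ _ := by gcongr; exact (hGs v).2
  set R : Pth → ℝ≥0∞ := fun w => 1 - ∑ i, k i (Y w) * ZF f (blk i w) with hR
  have hkZ : ∀ i : Fin N, Measurable (fun w => k i (Y w) * ZF f (blk i w)) := fun i =>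
    ((hkm i).comp hYm).mul (hZm.comp (meas_blk i))
  have hsumm : Measurable (fun w => ∑ i : Fin N, k i (Y w) * ZF f (blk i w)) :=
    Finset.measurable_sum _ fun i _ => hkZ i
  have hRm : Measurable R := measurable_const.sub hsumm
  have hRs : ∀ w, (∑ i, k i (Y w) * ZF f (blk i w)) + R w = 1 := fun w =>
    add_tsub_cancel_of_le (hks (Y w))
  have hRi : ∫⁻ w, R w ∂W ≤ δ := by
    have h1 : (∑ i, ∫⁻ v, G i (z v) * ZF f v ∂μ) + ∫⁻ w, R w ∂W = 1 := by
      have h2 : ∑ i, ∫⁻ v, G i (z v) * ZF f v ∂μ =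
          ∫⁻ w, ∑ i, k i (Y w) * ZF f (blk i w) ∂W := by
        rw [lintegral_finsetSum _ (fun i _ => hkZ i)]
        exact Finset.sum_congr rfl fun i _ => (hJ i f hf).symm
      rw [h2, ← lintegral_add_left hsumm]
      simp_rw [hRs]
      simp
    have h3 := (hJs f hf hfL).2
    rw [hf1, mul_one] at h3
    have h4 : ∑ i, ∫⁻ v, G i (z v) * ZF f v ∂μ ≠ ∞ :=
      ne_top_of_le_ne_top ENNReal.one_ne_top ((hJs f hf hfL).1.trans hf1.le)
    rw [← h1] at h3
    exact (ENNReal.add_le_add_iff_left h4).mp h3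
  have hform := lint_Gam hS W (fun i w => k i (Y w)) (fun i => (hkm i).comp hYm) f hf R hRm
  have hsec : ∀ (i : Fin N) (w : Pth), Measurable (fun t : ℝ =>
      f (shift (3 * ((i : ℕ) : ℝ≥0) + t.toNNReal) w)) := fun i w =>
    (hf.comp (meas_shr hS _)).comp measurable_prodMk_left
  have hconst : ∀ (i : Fin N) (w : Pth) (c : ℝ≥0∞),
      k i (Y w) * (2 * ∫⁻ t in Icc (0 : ℝ) (1 / 2),
        f (shift (3 * ((i : ℕ) : ℝ≥0) + t.toNNReal) w) * c) =
      k i (Y w) * ZF f (blk i w) * c := by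
    intro i w c
    rw [lintegral_mul_const _ (hsec i w), ← mul_assoc 2, ZF_blk hfL, mul_assoc]
  have hfst : (Gam W (fun i w => k i (Y w)) f R).map Prod.fst = W := by
    refine Measure.ext_of_lintegral _ fun g hg => ?_
    have hg1 : Measurable (fun p : Pth × ℝ≥0 => g p.1) := hg.comp measurable_fst
    have hkZg : ∀ i : Fin N, Measurable (fun w => k i (Y w) * ZF f (blk i w) * g w) := fun i =>
      (hkZ i).mul hg
    have hsg : Measurable (fun w => ∑ i : Fin N, k i (Y w) * ZF f (blk i w) * g w) :=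
      Finset.measurable_sum _ fun i _ => hkZg i
    rw [lintegral_map hg measurable_fst, hform _ hg1]
    simp_rw [hconst]
    rw [← lintegral_finsetSum _ (fun i _ => hkZg i), ← lintegral_add_left hsg]
    refine lintegral_congr fun w => ?_
    rw [← Finset.sum_mul, ← add_mul, hRs, one_mul]
  refine ⟨Gam W (fun i w => k i (Y w)) f R, ⟨?_⟩, hfst, ?_, ?_⟩
  · have h1 : (Gam W (fun i w => k i (Y w)) f R).map Prod.fst Set.univ = 1 := by
      rw [hfst]
      exact measure_univ
    rwa [Measure.map_apply measurable_fst MeasurableSet.univ, Set.preimage_univ] at h1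
  · rw [hform _ (measurable_snd.coe_nnreal_ennreal)]
    simp only [ENNReal.coe_zero, mul_zero, lintegral_const, zero_mul, add_zero]
    have hcost : ∀ i : Fin N, ∫⁻ v, G i (z v) * ZF f v ∂μ =
        ENNReal.ofReal (∫ x, γ i x * x ∂ν) := by
      intro i
      have hgx : Measurable (fun x : ℝ => γ i x * x) := (hγm i).mul measurable_id
      rw [ofReal_integral_eq_lintegral_ofReal]
      · rw [hν, lintegral_map hgx.ennreal_ofReal hzm]
        refine lintegral_congr fun v => ?_
        rw [ENNReal.ofReal_mul (hγ0 i _), hGr, hzZ]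
      · apply Integrable.of_bound (C := (b : ℝ)) hgx.aestronglyMeasurable
        filter_upwards [hν1] with x hx
        rw [Real.norm_eq_abs, abs_mul, abs_of_nonneg (hγ0 i x), abs_of_nonneg hx.1]
        have h1 : γ i x ≤ 1 := by
          calc γ i x ≤ ∫ _, (1 : ℝ) ∂(Measure.pi fun _ : Fin N => ν) := by
                apply integral_mono_of_nonneg (ae_of_all _ fun z' => (hκ01 i _).1)
                  (integrable_const _) (ae_of_all _ fun z' => (hκ01 i _).2)
            _ = 1 := by simp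
        calc γ i x * x ≤ 1 * b := mul_le_mul h1 hx.2 hx.1 zero_le_one
          _ = b := one_mul _
      · filter_upwards [hν1] with x hx
        exact mul_nonneg (hγ0 i x) hx.1
    have hc0 : ∀ i : Fin N, 0 ≤ ∫ x, γ i x * x ∂ν := by
      intro i
      apply integral_nonneg_of_ae
      filter_upwards [hν1] with x hx
      exact mul_nonneg (hγ0 i x) hx.1
    calc ∑ i : Fin N, ∫⁻ w, k i (Y w) * (2 * ∫⁻ t in Icc (0 : ℝ) (1 / 2),
          f (shift (3 * ((i : ℕ) : ℝ≥0) + t.toNNReal) w) *
          ((3 * ((i : ℕ) : ℝ≥0) + t.toNNReal : ℝ≥0) : ℝ≥0∞)) ∂W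
        ≤ ∑ i : Fin N, ∫⁻ w, k i (Y w) * ZF f (blk i w) *
            ENNReal.ofReal (3 * ((i : ℕ) : ℝ) + 1) ∂W := by
          refine Finset.sum_le_sum fun i _ => lintegral_mono fun w => ?_
          rw [← hconst]
          gcongr k i (Y w) * (2 * ?_)
          refine setLIntegral_mono (((hsec i w)).mul_const _) fun t ht => ?_
          gcongr
          rw [← ENNReal.ofReal_coe_nnreal]
          apply ENNReal.ofReal_le_ofReal
          push_cast
          rw [Real.coe_toNNReal _ ht.1]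
          linarith [ht.2]
      _ = ∑ i : Fin N, ENNReal.ofReal ((3 * ((i : ℕ) : ℝ) + 1) * ∫ x, γ i x * x ∂ν) := by
          refine Finset.sum_congr rfl fun i _ => ?_
          rw [lintegral_mul_const _ (hkZ i)]
          have h5 := hJ i f hf
          rw [h5, hcost, mul_comm, ← ENNReal.ofReal_mul (by positivity)]
      _ = ENNReal.ofReal (∑ i : Fin N, (3 * ((i : ℕ) : ℝ) + 1) * ∫ x, γ i x * x ∂ν) := by
          rw [ENNReal.ofReal_sum_of_nonneg fun i _ => mul_nonneg (by positivity) (hc0 i)]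
      _ ≤ ENNReal.ofReal C0 := ENNReal.ofReal_le_ofReal hκc
      _ = _ := rfl
  · intro F hF hF1 hFL
    have hFf : Measurable (fun w => F w * f w) := hF.mul hf
    have hFfL : Loc (fun w => F w * f w) := fun w w' h => by
      simp only [hFL w w' h, hfL w w' h]
    have hval : ∫⁻ p, F (shift p.2 p.1) ∂(Gam W (fun i w => k i (Y w)) f R) =
        (∑ i, ∫⁻ v, G i (z v) * ZF (fun w => F w * f w) v ∂μ) +
          ∫⁻ w, R w * F (shift 0 w) ∂W := by
      have hFs : Measurable (fun p : Pth × ℝ≥0 => F (shift p.2 p.1)) :=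
        hF.comp (Continuous.measurable hS)
      rw [hform _ hFs]
      congr 1
      refine Finset.sum_congr rfl fun i _ => ?_
      rw [← hJ i _ hFf]
      refine lintegral_congr fun w => ?_
      rw [← ZF_blk hFfL]
      congr 2
      refine lintegral_congr fun t => ?_
      exact mul_comm _ _
    have hrest : ∫⁻ w, R w * F (shift 0 w) ∂W ≤ δ := by
      refine le_trans (lintegral_mono fun w => ?_) hRi
      calc R w * F (shift 0 w) ≤ R w * 1 := by gcongr; exact hF1 _
        _ = R w := mul_one _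
    obtain ⟨h1, h2⟩ := hJs _ hFf hFfL
    rw [hval]
    constructor
    · exact add_le_add h1 hrest
    · refine h2.trans ?_
      have h3 : ∫⁻ w, F w * f w ∂W ≤ 1 := by
        rw [← hf1]
        refine lintegral_mono fun w => ?_
        calc F w * f w ≤ 1 * f w := by gcongr; exact hF1 w
          _ = f w := one_mul _
      calc _ ≤ ∑ i, ∫⁻ v, G i (z v) * ZF (fun w => F w * f w) v ∂μ + δ * 1 := by gcongr
        _ ≤ _ := by
          rw [mul_one]
          gcongr
          exact le_self_add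

end Pool.Agent.R676.BW
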