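import Mathlib

/-!
# Local data of a valuation over an almost Dedekind domain
-/

open Polynomial IsLocalRing

namespace Pool.Agent.R676.Pruf

set_option linter.unusedSectionVars false

section Local

variable {D K L Γ : Type*} [CommRing D] [IsDomain D] [Field K] [Field L] [Algebra D K]
  [IsFractionRing D K] [Algebra K L] [Algebra D L] [IsScalarTower D K L]
  [LinearOrderedCommGroupWithZero Γ]

/-- the centre of a valuation which is nonnegative on `D` -/
def cen (v : Valuation L Γ) (hv : ∀ x : D, v (algebraMap D L x) ≤ 1) : Ideal D where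
  carrier := {x | v (algebraMap D L x) < 1}
  add_mem' := fun {a b} ha hb => by
    simp only [Set.mem_ofPred_eq, map_add] at *
    exact v.map_add_lt ha hb
  zero_mem' := by simp
  smul_mem' := fun c x hx => by
    simp only [Set.mem_ofPred_eq, smul_eq_mul, map_mul] at *
    calc v (algebraMap D L c) * v (algebraMap D L x) ≤ 1 * v (algebraMap D L x) := by
          gcongr
          exact hv c
      _ < 1 := by rwa [one_mul]

theorem mem_cen {v : Valuation L Γ} {hv : ∀ x : D, v (algebraMap D L x) ≤ 1} {x : D} :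
    x ∈ cen v hv ↔ v (algebraMap D L x) < 1 := Iff.rfl

theorem cen_prime (v : Valuation L Γ) (hv : ∀ x : D, v (algebraMap D L x) ≤ 1) :
    (cen v hv).IsPrime := by
  refine ⟨?_, ?_⟩
  · rw [Ideal.ne_top_iff_one, mem_cen]
    simp
  · intro a b hab
    rw [mem_cen, map_mul, map_mul] at hab
    rw [mem_cen, mem_cen]
    by_contra hcon
    push Not at hcon
    obtain ⟨h1, h2⟩ := hcon
    have h3 := le_antisymm (hv a) h1
    have h4 := le_antisymm (hv b) h2
    rw [h3, h4] at hab
    simp at hab

/-- nonzero primes are maximal if all localizations at maximal ideals are DVRs -/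
theorem prime_maximal (hdvr : ∀ (P : Ideal D) [P.IsMaximal],
    IsDiscreteValuationRing (Localization.AtPrime P)) (P : Ideal D) [hP : P.IsPrime] (h0 : P ≠ ⊥) :
    P.IsMaximal := by
  obtain ⟨M, hM, hPM⟩ := Ideal.exists_le_maximal P hP.ne_top
  have := hdvr M
  have hdisj : Disjoint (M.primeCompl : Set D) (P : Set D) := by
    rw [Set.disjoint_left]
    intro x hx hx'
    exact hx (hPM hx')
  have h1 := IsLocalization.isPrime_of_isPrime_disjoint M.primeCompl (Localization.AtPrime M) P hP hdisj
  have h2 := IsLocalization.under_map_of_isPrime_disjoint M.primeCompl (Localization.AtPrime M) hP hdisj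
  have h3 : Ideal.map (algebraMap D (Localization.AtPrime M)) P ≠ ⊥ := by
    intro h
    rw [h] at h2
    apply h0
    rw [← h2]
    rw [eq_bot_iff]
    intro x hx
    rw [Ideal.mem_comap, Ideal.mem_bot] at hx
    have := IsLocalization.injective (Localization.AtPrime M) (M.primeCompl_le_nonZeroDivisors)
    exact (map_eq_zero_iff _ this).mp hx
  have h4 : (Ideal.map (algebraMap D (Localization.AtPrime M)) P).IsMaximal := h1.isMaximal h3
  have h5 := IsLocalRing.eq_maximalIdeal h4
  have h6 : P = M := by
    rw [← h2, h5]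
    exact Localization.AtPrime.under_maximalIdeal
  rw [h6]; exact hM

theorem local_data (hdvr : ∀ (P : Ideal D) [P.IsMaximal],
    IsDiscreteValuationRing (Localization.AtPrime P)) (v : Valuation L Γ)
    (hv : ∀ x : D, v (algebraMap D L x) ≤ 1) (c : D) (hc0 : c ≠ 0) (hc : v (algebraMap D L c) < 1) :
    ∃ (P : Ideal D) (hP : P.IsMaximal) (γ : Γ), c ∈ P ∧ (∀ x ∈ P, v (algebraMap D L x) < 1) ∧ γ ≠ 0 ∧
      γ < 1 ∧ (∀ a : D, a ≠ 0 → ∃ k : ℕ, (haveI := hdvr P;
        IsDiscreteValuationRing.addVal (Localization.AtPrime P) (algebraMap D _ a) = k) ∧ v (algebraMap D L a) = γ ^ k) ∧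
      (∀ x : K, v (algebraMap K L x) ≤ 1 →
        ∃ a : D, v (algebraMap K L x - algebraMap D L a) < 1) := by
  classical
  set P := cen v hv with hPdef
  have hPp : P.IsPrime := cen_prime v hv
  have hcP : c ∈ P := hc
  have hPm : P.IsMaximal := by
    apply prime_maximal hdvr P
    intro h
    rw [h, Ideal.mem_bot] at hcP
    exact hc0 hcP
  have hdv := hdvr P
  have hinj : Function.Injective (algebraMap D L) := by
    rw [IsScalarTower.algebraMap_eq D K L]
    exact (algebraMap K L).injective.comp (IsFractionRing.injective D K)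
  have hunit : ∀ s : P.primeCompl, IsUnit (algebraMap D L s) := by
    intro s
    rw [isUnit_iff_ne_zero]
    intro h
    have : (s : D) = 0 := hinj (by rw [h, map_zero])
    exact s.2 (by rw [this]; exact P.zero_mem)
  have hvs : ∀ s : D, s ∉ P → v (algebraMap D L s) = 1 := by
    intro s hs
    rw [hPdef, mem_cen, not_lt] at hs
    exact le_antisymm (hv s) hs
  let φ : Localization.AtPrime P →+* L := IsLocalization.lift (M := P.primeCompl) hunit
  have hφ : ∀ a : D, φ (algebraMap D _ a) = algebraMap D L a := fun a =>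
    IsLocalization.lift_eq hunit a
  have hφmk : ∀ (a : D) (s : P.primeCompl), φ (IsLocalization.mk' _ a s) * algebraMap D L s =
      algebraMap D L a := by
    intro a s
    rw [← hφ s, ← map_mul, IsLocalization.mk'_spec, hφ]
  have hφle : ∀ x, v (φ x) ≤ 1 := by
    intro x
    obtain ⟨a, s, rfl⟩ := IsLocalization.exists_mk'_eq P.primeCompl x
    have h1 := congrArg v (hφmk a s)
    rw [map_mul, hvs s s.2, mul_one] at h1
    rw [h1]; exact hv a
  have hφu : ∀ u : (Localization.AtPrime P)ˣ, v (φ u) = 1 := by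
    intro u
    have h1 : v (φ u) * v (φ (u⁻¹ : (Localization.AtPrime P)ˣ)) = 1 := by
      rw [← map_mul, ← map_mul, Units.mul_inv, map_one, map_one]
    apply le_antisymm (hφle _)
    by_contra hlt
    rw [not_le] at hlt
    have h2 := hφle (u⁻¹ : (Localization.AtPrime P)ˣ)
    have : v (φ u) * v (φ (u⁻¹ : (Localization.AtPrime P)ˣ)) < 1 := by
      calc _ ≤ v (φ u) * 1 := by gcongr
        _ < 1 := by rwa [mul_one]
    exact absurd h1 this.ne
  obtain ⟨ϖ, hϖ⟩ := IsDiscreteValuationRing.exists_irreducible (Localization.AtPrime P)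
  have hφinj : ∀ x, φ x = 0 → x = 0 := by
    intro x hx
    obtain ⟨a, s, rfl⟩ := IsLocalization.exists_mk'_eq P.primeCompl x
    have h1 := hφmk a s
    rw [hx, zero_mul] at h1
    have h2 : a = 0 := hinj (by rw [← h1, map_zero])
    rw [h2, IsLocalization.mk'_zero]
  refine ⟨P, hPm, v (φ ϖ), hcP, fun x hx => hx, ?_, ?_, ?_, ?_⟩
  · rw [Ne, map_eq_zero]
    intro h
    exact hϖ.ne_zero (hφinj _ h)
  · have h1 : ϖ ∈ maximalIdeal (Localization.AtPrime P) := by
      rw [IsLocalRing.mem_maximalIdeal]; exact hϖ.not_isUnit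
    obtain ⟨a, s, hϖ'⟩ := IsLocalization.exists_mk'_eq P.primeCompl ϖ
    have h2 : a ∈ P := by
      rw [← hϖ'] at h1
      exact (IsLocalization.AtPrime.mk'_mem_maximal_iff (Localization.AtPrime P) P a s).mp h1
    have h3 := congrArg v (hφmk a s)
    rw [map_mul, hvs s s.2, mul_one, hϖ'] at h3
    rw [h3]; exact h2
  · intro a ha
    have ha' : algebraMap D (Localization.AtPrime P) a ≠ 0 := by
      intro h
      have := hφ a
      rw [h, map_zero] at this
      exact ha (hinj (by rw [← this, map_zero]))
    obtain ⟨k, u, hk⟩ := IsDiscreteValuationRing.eq_unit_mul_pow_irreducible ha' hϖ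
    refine ⟨k, IsDiscreteValuationRing.addVal_def _ u hϖ k hk, ?_⟩
    rw [← hφ a, hk, map_mul, map_mul, hφu, one_mul, map_pow, map_pow]
  · intro x hx
    obtain ⟨a, b, hb, rfl⟩ := IsFractionRing.div_surjective (A := D) x
    have hb0 : b ≠ 0 := nonZeroDivisors.ne_zero hb
    by_cases ha0 : a = 0
    · refine ⟨0, ?_⟩
      simp [ha0]
    have hne : ∀ z : D, z ≠ 0 → algebraMap D (Localization.AtPrime P) z ≠ 0 := by
      intro z hz h
      have := hφ z
      rw [h, map_zero] at this
      exact hz (hinj (by rw [← this, map_zero]))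
    obtain ⟨k, u, hk⟩ := IsDiscreteValuationRing.eq_unit_mul_pow_irreducible (hne a ha0) hϖ
    obtain ⟨l, w, hl⟩ := IsDiscreteValuationRing.eq_unit_mul_pow_irreducible (hne b hb0) hϖ
    have hva : v (algebraMap D L a) = v (φ ϖ) ^ k := by
      rw [← hφ a, hk, map_mul, map_mul, hφu, one_mul, map_pow, map_pow]
    have hvb : v (algebraMap D L b) = v (φ ϖ) ^ l := by
      rw [← hφ b, hl, map_mul, map_mul, hφu, one_mul, map_pow, map_pow]
    have hdvd : algebraMap D (Localization.AtPrime P) b ∣ algebraMap D (Localization.AtPrime P) a := by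
      rw [hk, hl]
      -- valuation comparison
      by_cases hlk : l ≤ k
      · rw [show (w : Localization.AtPrime P) * ϖ ^ l ∣ u * ϖ ^ k ↔ ϖ ^ l ∣ u * ϖ ^ k from
          (Units.mul_left_dvd)]
        exact Dvd.dvd.mul_left (pow_dvd_pow _ hlk) _
      · exfalso
        rw [not_le] at hlk
        rw [map_div₀, map_div₀, ← IsScalarTower.algebraMap_apply D K L,
          ← IsScalarTower.algebraMap_apply D K L, hva, hvb] at hx
        have hγ0 : v (φ ϖ) ≠ 0 := by
          rw [Ne, map_eq_zero]
          intro h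
          exact hϖ.ne_zero (hφinj _ h)
        have hγ1 : v (φ ϖ) < 1 := by
          have h1 : ϖ ∈ maximalIdeal (Localization.AtPrime P) := by
            rw [IsLocalRing.mem_maximalIdeal]; exact hϖ.not_isUnit
          obtain ⟨a, s, hϖ'⟩ := IsLocalization.exists_mk'_eq P.primeCompl ϖ
          have h2 : a ∈ P := by
            rw [← hϖ'] at h1
            exact (IsLocalization.AtPrime.mk'_mem_maximal_iff (Localization.AtPrime P) P a s).mp h1
          have h3 := congrArg v (hφmk a s)
          rw [map_mul, hvs s s.2, mul_one, hϖ'] at h3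
          rw [h3]; exact h2
        rw [div_le_one₀ (pow_pos (zero_lt_iff.mpr hγ0) l)] at hx
        exact absurd hx (not_le.mpr (pow_lt_pow_right_of_lt_one₀ (zero_lt_iff.mpr hγ0) hγ1 hlk))
    obtain ⟨z, hz⟩ := hdvd
    have hxz : algebraMap K L (algebraMap D K a / algebraMap D K b) = φ z := by
      rw [map_div₀, ← IsScalarTower.algebraMap_apply D K L, ← IsScalarTower.algebraMap_apply D K L,
        div_eq_iff, ← hφ a, ← hφ b, hz, map_mul, mul_comm]
      intro h
      exact hb0 (hinj (by rw [h, map_zero]))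
    rw [hxz]
    obtain ⟨a', s, hz'⟩ := IsLocalization.exists_mk'_eq P.primeCompl z
    -- invert `s` modulo `P`
    obtain ⟨t, ht⟩ : ∃ t : D, (s : D) * t - 1 ∈ P := by
      have h1 : (Ideal.Quotient.mk P (s : D)) ≠ 0 := by
        rw [Ne, Ideal.Quotient.eq_zero_iff_mem]; exact s.2
      let _ : Field (D ⧸ P) := Ideal.Quotient.field P
      obtain ⟨t, ht⟩ := Ideal.Quotient.mk_surjective ((Ideal.Quotient.mk P (s : D))⁻¹)
      refine ⟨t, ?_⟩
      rw [← Ideal.Quotient.eq_zero_iff_mem, map_sub, map_mul, ht, map_one, mul_inv_cancel₀ h1,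
        sub_self]
    refine ⟨a' * t, ?_⟩
    have h1 := hφmk a' s
    rw [hz'] at h1
    have h2 : (φ z - algebraMap D L (a' * t)) * algebraMap D L s =
        - (algebraMap D L a' * algebraMap D L ((s : D) * t - 1)) := by
      rw [sub_mul, h1, map_sub, map_mul, map_mul, map_one]
      ring
    have h3 := congrArg v h2
    rw [map_mul v _ (algebraMap D L s), hvs s s.2, mul_one, Valuation.map_neg,
      map_mul v (algebraMap D L a')] at h3
    rw [h3]
    calc v (algebraMap D L a') * v (algebraMap D L ((s : D) * t - 1))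
        ≤ 1 * v (algebraMap D L ((s : D) * t - 1)) := by gcongr; exact hv a'
      _ < 1 := by rw [one_mul]; exact ht

end Local

end Pool.Agent.R676.Pruf
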