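import Mathlib
import Pool.Agent.R676.PrufA
import Pool.Agent.R701.IntVal

/-!
# Values and residues of elements of small degree
-/

open Polynomial IsLocalRing

namespace Pool.Agent.R676.Pruf

set_option linter.unusedSectionVars false

section Deg

variable {K L Γ : Type*} [Field K] [Field L] [Algebra K L] [FiniteDimensional K L]
  [LinearOrderedCommGroupWithZero Γ]

/-- a power of an element of degree `≤ n` has the value of an element of the base field -/
theorem value_pow (v : Valuation L Γ) {n : ℕ} (hn : Module.finrank K L ≤ n) (y : L) (hy : y ≠ 0) :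
    ∃ e : ℕ, 1 ≤ e ∧ e ≤ n ∧ ∃ x : K, x ≠ 0 ∧ v (y ^ e) = v (algebraMap K L x) := by
  classical
  set p := minpoly K y with hp
  have hint : IsIntegral K y := Algebra.IsIntegral.isIntegral y
  have hdeg : p.natDegree ≤ n := (minpoly.natDegree_le y).trans hn
  set s := Finset.range (p.natDegree + 1) with hs
  let f : ℕ → L := fun i => algebraMap K L (p.coeff i) * y ^ i
  have hsum : ∑ i ∈ s, f i = 0 := by
    have := minpoly.aeval K y
    rw [aeval_eq_sum_range] at this
    simpa [f, Algebra.smul_def] using this
  obtain ⟨j, hj, hmax⟩ := Finset.exists_max_image s (fun i => v (f i)) ⟨0, by simp [hs]⟩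
  have hlead : v (f p.natDegree) ≠ 0 := by
    have : p.coeff p.natDegree = 1 := (minpoly.monic hint).coeff_natDegree
    simp [f, this, hy]
  have hj0 : v (f j) ≠ 0 := by
    intro h
    have := hmax p.natDegree (by simp [hs])
    rw [h] at this
    exact hlead (le_zero_iff.mp this)
  obtain ⟨i, hi, hij, hvi⟩ : ∃ i ∈ s, i ≠ j ∧ v (f i) = v (f j) := by
    by_contra hcon
    push Not at hcon
    have h1 : v (∑ i ∈ s, f i) = v (f j) := by
      apply v.map_sum_eq_of_lt hj
      intro i hi
      rw [Finset.mem_sdiff, Finset.mem_singleton] at hi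
      exact lt_of_le_of_ne (hmax i hi.1) (hcon i hi.1 hi.2)
    rw [hsum, map_zero] at h1
    exact hj0 h1.symm
  have key : ∀ i j : ℕ, i < j → j ≤ n → v (f i) = v (f j) → v (f j) ≠ 0 →
      ∃ e : ℕ, 1 ≤ e ∧ e ≤ n ∧ ∃ x : K, x ≠ 0 ∧ v (y ^ e) = v (algebraMap K L x) := by
    intro i j hlt hjn hv hne
    have hci : p.coeff i ≠ 0 := by
      intro h
      rw [← hv] at hne
      simp [f, h] at hne
    have hcj : p.coeff j ≠ 0 := by
      intro h
      simp [f, h] at hne
    refine ⟨j - i, by omega, by omega, p.coeff i / p.coeff j, div_ne_zero hci hcj, ?_⟩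
    have hvy : v y ≠ 0 := by simpa using hy
    have hvc : v (algebraMap K L (p.coeff j)) ≠ 0 := by simpa using hcj
    simp only [f, map_mul, map_pow] at hv
    rw [map_div₀, map_div₀, map_pow, eq_div_iff hvc]
    have h2 : v y ^ j = v y ^ (j - i) * v y ^ i := by rw [← pow_add]; congr 1; omega
    rw [h2, ← mul_assoc] at hv
    have h3 := mul_right_cancel₀ (pow_ne_zero i hvy) hv
    rw [h3, mul_comm]
  have hjs : j ≤ n := by have := Finset.mem_range.mp hj; omega
  have his : i ≤ n := by have := Finset.mem_range.mp hi; omega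
  rcases lt_or_gt_of_ne hij with h | h
  · exact key i j h hjs hvi hj0
  · exact key j i h his hvi.symm (by rw [hvi]; exact hj0)

end Deg

section Res

variable {D K L Γ : Type*} [CommRing D] [IsDomain D] [Field K] [Field L] [Algebra D K]
  [IsFractionRing D K] [Algebra K L] [Algebra D L] [IsScalarTower D K L]
  [LinearOrderedCommGroupWithZero Γ] [FiniteDimensional K L]

/-- Units of degree `≤ n` satisfy `u ^ N ≡ 1`. -/
theorem unit_pow (v : Valuation L Γ) (hv : ∀ x : D, v (algebraMap D L x) ≤ 1) {n : ℕ}
    (hn : Module.finrank K L ≤ n) (P : Ideal D) [P.IsMaximal]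
    (hP : ∀ x ∈ P, v (algebraMap D L x) < 1) {Q : ℕ} (hfin : Finite (D ⧸ P))
    (hQ : Nat.card (D ⧸ P) ≤ Q)
    (happ : ∀ x : K, v (algebraMap K L x) ≤ 1 → ∃ a : D, v (algebraMap K L x - algebraMap D L a) < 1)
    (u : L) (hu : v u = 1) : v (u ^ (Q ^ n).factorial - 1) < 1 := by
  classical
  set p := minpoly K u with hp
  have hint : IsIntegral K u := Algebra.IsIntegral.isIntegral u
  have hdeg : p.natDegree ≤ n := (minpoly.natDegree_le u).trans hn
  set s := Finset.range (p.natDegree + 1) with hs
  obtain ⟨j, hj, hmax⟩ := Finset.exists_max_image s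
    (fun i => toLex (v (algebraMap K L (p.coeff i)), i)) ⟨0, by simp [hs]⟩
  have hmax1 : ∀ i ∈ s, v (algebraMap K L (p.coeff i)) ≤ v (algebraMap K L (p.coeff j)) := by
    intro i hi
    have := hmax i hi
    rw [Prod.Lex.toLex_le_toLex] at this
    rcases this with h | h
    · exact h.le
    · exact h.1.le
  have hmax2 : ∀ i ∈ s, j < i → v (algebraMap K L (p.coeff i)) < v (algebraMap K L (p.coeff j)) := by
    intro i hi hji
    have := hmax i hi
    rw [Prod.Lex.toLex_le_toLex] at this
    rcases this with h | h
    · exact h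
    · exact absurd h.2 (by simp only; omega)
  have hcj : v (algebraMap K L (p.coeff j)) ≠ 0 := by
    intro h
    have h1 := hmax1 p.natDegree (by simp [hs])
    rw [h, (minpoly.monic hint).coeff_natDegree] at h1
    simp at h1
  have hcj' : p.coeff j ≠ 0 := by
    intro h; apply hcj; rw [h]; simp
  have hjn : j ≤ n := by have := Finset.mem_range.mp hj; omega
  -- the lifts
  have hlift : ∀ i, ∃ a : D, i ∈ s → v (algebraMap K L (p.coeff i / p.coeff j) - algebraMap D L a) < 1 := by
    intro i
    by_cases hi : i ∈ s
    · have h1 : v (algebraMap K L (p.coeff i / p.coeff j)) ≤ 1 := by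
        rw [map_div₀, map_div₀, div_le_one₀ (zero_lt_iff.mpr hcj)]
        exact hmax1 i hi
      obtain ⟨a, ha⟩ := happ _ h1
      exact ⟨a, fun _ => ha⟩
    · exact ⟨0, fun h => absurd h hi⟩
  choose a ha using hlift
  set μ : D[X] := X ^ j + ∑ i ∈ Finset.range j, C (a i) * X ^ i with hμ
  have hlow : (∑ i ∈ Finset.range j, C (a i) * X ^ i : D[X]).degree < j := by
    refine lt_of_le_of_lt (degree_sum_le _ _) ?_
    rw [Finset.sup_lt_iff (by exact_mod_cast WithBot.bot_lt_coe j)]
    intro i hi
    exact lt_of_le_of_lt (degree_C_mul_X_pow_le _ _) (by exact_mod_cast Finset.mem_range.mp hi)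
  have hμm : μ.Monic := monic_X_pow_add hlow
  have hμd : μ.natDegree ≤ n := by
    have : μ.natDegree = j := by
      apply natDegree_eq_of_degree_eq_some
      rw [hμ]
      exact (degree_add_eq_left_of_degree_lt (by rwa [degree_X_pow])).trans (degree_X_pow j)
    omega
  have hvu : ∀ i, v (u ^ i) = 1 := fun i => by rw [map_pow, hu, one_pow]
  have hμu : v (aeval u μ) < 1 := by
    have h1 : ∑ i ∈ s, algebraMap K L (p.coeff i / p.coeff j) * u ^ i = 0 := by
      have := minpoly.aeval K u
      rw [aeval_eq_sum_range] at this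
      have h2 : ∑ i ∈ s, algebraMap K L (p.coeff i / p.coeff j) * u ^ i =
          (algebraMap K L (p.coeff j))⁻¹ * ∑ i ∈ s, p.coeff i • u ^ i := by
        rw [Finset.mul_sum]
        refine Finset.sum_congr rfl fun i _ => ?_
        rw [Algebra.smul_def, map_div₀, div_eq_mul_inv]
        ring
      rw [h2, hs, this, mul_zero]
    have h2 : aeval u μ = ∑ i ∈ s, (if i = j then 1 else if i < j then algebraMap D L (a i) else 0) *
        u ^ i := by
      rw [hμ, map_add, map_pow, aeval_X, map_sum]
      have hjs : j ∈ s := hj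
      rw [← Finset.add_sum_erase s _ hjs]
      congr 1
      · simp
      · have hsub : Finset.range j ⊆ s.erase j := by
          intro i hi
          rw [Finset.mem_erase]
          have := Finset.mem_range.mp hi
          have := Finset.mem_range.mp hj
          exact ⟨by omega, Finset.mem_range.mpr (by omega)⟩
        rw [← Finset.sum_subset hsub]
        · refine Finset.sum_congr rfl fun i hi => ?_
          have := Finset.mem_range.mp hi
          rw [if_neg (by omega), if_pos this, map_mul, aeval_C, map_pow, aeval_X]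
        · intro i hi hi'
          have h3 : ¬ i < j := fun h => hi' (Finset.mem_range.mpr h)
          rw [if_neg (Finset.ne_of_mem_erase hi), if_neg h3, zero_mul]
    have h3 : aeval u μ = ∑ i ∈ s, ((if i = j then 1 else if i < j then algebraMap D L (a i) else 0) -
        algebraMap K L (p.coeff i / p.coeff j)) * u ^ i := by
      rw [h2]
      simp_rw [sub_mul]
      rw [Finset.sum_sub_distrib, h1, sub_zero]
    rw [h3]
    apply v.map_sum_lt one_ne_zero
    intro i hi
    rw [map_mul, hvu, mul_one]
    by_cases hij : i = j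
    · rw [if_pos hij, hij, div_self hcj', map_one, sub_self, map_zero]
      exact zero_lt_one
    · rw [if_neg hij]
      by_cases hlt : i < j
      · rw [if_pos hlt, Valuation.map_sub_swap]
        exact ha i hi
      · rw [if_neg hlt, zero_sub, Valuation.map_neg, map_div₀, map_div₀,
          div_lt_one₀ (zero_lt_iff.mpr hcj)]
        exact hmax2 i hi (by omega)
  -- use the universal polynomial
  set M := Q ^ n with hM
  have hQ1 : 1 ≤ Q := by
    have : 0 < Nat.card (D ⧸ P) := Nat.card_pos
    omega
  have hrem := Pool.Agent.R701.IntVal.exists_rem P hQ1 hQ μ hμm hμd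
  rw [← hM] at hrem
  set r : D[X] := (X ^ (M + M.factorial) - X ^ M : D[X]) %ₘ μ with hr
  have hval : v (u ^ (M + M.factorial) - u ^ M) < 1 := by
    have h1 : u ^ (M + M.factorial) - u ^ M =
        aeval u r + aeval u μ * aeval u ((X ^ (M + M.factorial) - X ^ M : D[X]) /ₘ μ) := by
      have h2 := congrArg (aeval u) (modByMonic_add_div (X ^ (M + M.factorial) - X ^ M : D[X]) μ)
      rw [map_add, map_mul, map_sub, map_pow, map_pow, aeval_X] at h2
      exact h2.symm
    have haev : ∀ g : D[X], v (aeval u g) ≤ 1 := by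
      intro g
      rw [aeval_eq_sum_range]
      apply v.map_sum_le
      intro i _
      rw [Algebra.smul_def, map_mul, hvu, mul_one]
      exact hv _
    rw [h1]
    apply v.map_add_lt
    · rw [aeval_eq_sum_range]
      apply v.map_sum_lt one_ne_zero
      intro i _
      rw [Algebra.smul_def, map_mul, hvu, mul_one]
      exact hP _ (hrem i)
    · rw [map_mul]
      calc v (aeval u μ) * _ ≤ v (aeval u μ) * 1 := by gcongr; exact haev _
        _ < 1 := by rwa [mul_one]
  have h5 : u ^ (M + M.factorial) - u ^ M = u ^ M * (u ^ M.factorial - 1) := by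
    rw [pow_add]; ring
  rw [h5, map_mul, hvu, one_mul] at hval
  exact hval

end Res

end Pool.Agent.R676.Pruf
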