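import Mathlib
import Pool.Agent.R676.PrufB

/-!
# A polynomial which is small on all elements which are not too small
-/

open Polynomial IsLocalRing

namespace Pool.Agent.R676.Pruf

set_option linter.unusedSectionVars false

universe u v

variable (D : Type u) (K : Type v) [CommRing D] [IsDomain D] [Field K] [Algebra D K]
  [IsFractionRing D K]

/-- a finite extension of `K` of degree at most `n` with a valuation which is nonnegative on `D` and
positive at `c` -/
structure Pt (c : D) (n : ℕ) where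
  L : Type v
  [field : Field L]
  [algK : Algebra K L]
  [algD : Algebra D L]
  [tower : IsScalarTower D K L]
  [fin : FiniteDimensional K L]
  hn : Module.finrank K L ≤ n
  Γ : Type v
  [lo : LinearOrderedCommGroupWithZero Γ]
  v : Valuation L Γ
  hv : ∀ x : D, v (algebraMap D L x) ≤ 1
  hc : v (algebraMap D L c) < 1

attribute [instance] Pt.field Pt.algK Pt.algD Pt.tower Pt.fin Pt.lo

variable {D K}

/-- the bounds for the valuations and the residue fields at the primes containing `c` -/
structure Bdd (c : D) (E Q : ℕ) : Prop where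
  hdvr : ∀ (P : Ideal D) [P.IsMaximal], IsDiscreteValuationRing (Localization.AtPrime P)
  hfin : ∀ (P : Ideal D), P.IsMaximal → Finite (D ⧸ P)
  hE : ∀ (P : Ideal D) [P.IsMaximal], c ∈ P → (haveI := hdvr P;
    IsDiscreteValuationRing.addVal (Localization.AtPrime P) (algebraMap D _ c) ≤ E)
  hQ : ∀ (P : Ideal D), P.IsMaximal → c ∈ P → Nat.card (D ⧸ P) ≤ Q

theorem Pt.inj {c : D} {n : ℕ} (p : Pt D K c n) : Function.Injective (algebraMap D p.L) := by
  rw [IsScalarTower.algebraMap_eq D K p.L]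
  exact (algebraMap K p.L).injective.comp (IsFractionRing.injective D K)

/-- the three facts -/
theorem Pt.facts {c : D} (hc0 : c ≠ 0) {n E Q : ℕ} (hB : Bdd c E Q) (p : Pt D K c n) :
    (∀ y : p.L, y ≠ 0 → ∃ R : ℤ, p.v y ^ (n * E).factorial = p.v (algebraMap D p.L c) ^ R) ∧
    (∀ y : p.L, p.v y < 1 → p.v y ^ (n * E) ≤ p.v (algebraMap D p.L c)) ∧
    (∀ y : p.L, p.v y = 1 → p.v (y ^ (Q ^ n).factorial - 1) < 1) := by
  obtain ⟨P, hP, γ, hcP, hPv, hγ0, hγ1, hval, happ⟩ := local_data (K := K) hB.hdvr p.v p.hv c hc0 p.hc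
  obtain ⟨m, hm, hcm⟩ := hval c hc0
  have hmE : m ≤ E := by
    have := hB.hE P hcP
    rw [hm] at this
    exact_mod_cast this
  have hm1 : 1 ≤ m := by
    by_contra h
    have h0 : m = 0 := by omega
    have := p.hc
    rw [hcm, h0, pow_zero] at this
    exact lt_irrefl _ this
  have hKval : ∀ x : K, x ≠ 0 → ∃ k : ℤ, p.v (algebraMap K p.L x) = γ ^ k := by
    intro x hx
    obtain ⟨a, b, hb, rfl⟩ := IsFractionRing.div_surjective (A := D) x
    have hb0 : b ≠ 0 := nonZeroDivisors.ne_zero hb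
    have ha0 : a ≠ 0 := by rintro rfl; simp at hx
    obtain ⟨k, _, hk⟩ := hval a ha0
    obtain ⟨l, _, hl⟩ := hval b hb0
    refine ⟨(k : ℤ) - l, ?_⟩
    rw [map_div₀, map_div₀, ← IsScalarTower.algebraMap_apply D K p.L,
      ← IsScalarTower.algebraMap_apply D K p.L, hk, hl, zpow_sub₀ hγ0, zpow_natCast, zpow_natCast]
  have hγpos : 0 < γ := zero_lt_iff.mpr hγ0
  refine ⟨?_, ?_, ?_⟩
  · intro y hy
    obtain ⟨e, he1, hen, x, hx0, hx⟩ := value_pow p.v p.hn y hy
    obtain ⟨k, hk⟩ := hKval x hx0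
    rw [hk, map_pow] at hx
    have hdvd : e * m ∣ (n * E).factorial :=
      Nat.dvd_factorial (by positivity) (Nat.mul_le_mul hen hmE)
    obtain ⟨t, ht⟩ := hdvd
    refine ⟨k * t, ?_⟩
    rw [ht, hcm, mul_assoc, pow_mul, hx]
    rw [← zpow_natCast γ m, ← zpow_mul, ← zpow_natCast, ← zpow_mul]
    congr 1
    push_cast
    ring
  · intro y hy1
    have hn1 : 1 ≤ n := le_trans Module.finrank_pos p.hn
    by_cases hy : y = 0
    · rw [hy, map_zero, zero_pow]
      · exact zero_le
      · have : 0 < n * E := Nat.mul_pos hn1 (by omega)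
        omega
    · obtain ⟨e, he1, hen, x, hx0, hx⟩ := value_pow p.v p.hn y hy
      obtain ⟨k, hk⟩ := hKval x hx0
      rw [hk, map_pow] at hx
      have hk1 : 1 ≤ k := by
        by_contra hcon
        have h1 : k ≤ 0 := by omega
        have h2 : (1 : p.Γ) ≤ γ ^ k := one_le_zpow_of_nonpos₀ hγpos hγ1.le h1
        rw [← hx] at h2
        exact absurd h2 (not_le.mpr (pow_lt_one₀ zero_le hy1 (by omega)))
      calc p.v y ^ (n * E) ≤ p.v y ^ (e * E) := by
            apply pow_le_pow_right_of_le_one' hy1.le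
            exact Nat.mul_le_mul_right E hen
        _ = γ ^ (k * E) := by rw [pow_mul, hx, zpow_mul, zpow_natCast]
        _ ≤ γ ^ (m : ℤ) := by
            apply zpow_le_zpow_right_of_le_one₀ hγpos hγ1.le
            have : (m : ℤ) ≤ E := by exact_mod_cast hmE
            nlinarith
        _ = p.v (algebraMap D p.L c) := by rw [hcm, zpow_natCast]
  · intro y hy
    exact unit_pow p.v p.hv p.hn P hPv (hB.hfin P hP) (hB.hQ P hP hcP) happ y hy

/-- `h` has coefficients in `D[1/c]` -/
def Den (c : D) (h : K[X]) : Prop :=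
  ∃ (k : ℕ) (H : D[X]), H.map (algebraMap D K) = C (algebraMap D K c ^ k) * h

theorem Den.of_map (c : D) (H : D[X]) : Den c (H.map (algebraMap D K)) := ⟨0, H, by simp⟩

theorem Den.mul {c : D} {f g : K[X]} (hf : Den c f) (hg : Den c g) : Den c (f * g) := by
  obtain ⟨k, F, hF⟩ := hf
  obtain ⟨l, G, hG⟩ := hg
  refine ⟨k + l, F * G, ?_⟩
  rw [Polynomial.map_mul, hF, hG, pow_add, C_mul]
  ring

theorem Den.add {c : D} {f g : K[X]} (hf : Den c f) (hg : Den c g) : Den c (f + g) := by
  obtain ⟨k, F, hF⟩ := hf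
  obtain ⟨l, G, hG⟩ := hg
  refine ⟨k + l, C (c ^ l) * F + C (c ^ k) * G, ?_⟩
  rw [Polynomial.map_add, Polynomial.map_mul, Polynomial.map_mul, hF, hG, pow_add, C_mul,
    Polynomial.map_C, Polynomial.map_C]
  simp only [map_pow]
  ring

theorem Den.pow {c : D} {f : K[X]} (hf : Den c f) (m : ℕ) : Den c (f ^ m) := by
  induction m with
  | zero => rw [pow_zero]; exact ⟨0, 1, by simp⟩
  | succ m ih => rw [pow_succ]; exact ih.mul hf

/-- values of polynomials with coefficients in `D[1/c]` -/
theorem Den.val {c : D} {h : K[X]} {k : ℕ} {H : D[X]}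
    (hH : H.map (algebraMap D K) = C (algebraMap D K c ^ k) * h)
    {L Γ : Type*} [Field L] [Algebra K L] [Algebra D L] [IsScalarTower D K L]
    [LinearOrderedCommGroupWithZero Γ] (v : Valuation L Γ) (hv : ∀ x : D, v (algebraMap D L x) ≤ 1)
    {y : L} (hy : v y ≤ 1) : v (algebraMap D L c) ^ k * v (aeval y h) ≤ 1 := by
  have h1 : aeval y H = algebraMap D L c ^ k * aeval y h := by
    rw [← aeval_map_algebraMap K y H, hH, map_mul, aeval_C, map_pow,
      ← IsScalarTower.algebraMap_apply D K L]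
  rw [← map_pow, ← map_mul, ← h1, aeval_eq_sum_range]
  apply v.map_sum_le
  intro i _
  rw [Algebra.smul_def, map_mul, map_pow]
  calc v (algebraMap D L (H.coeff i)) * v y ^ i ≤ 1 * 1 := by
        gcongr
        · exact hv _
        · exact pow_le_one' hy i
    _ = 1 := one_mul 1

/-- The annulus polynomial. -/
theorem exists_annulus {c : D} (hc0 : c ≠ 0) {E Q : ℕ} (hB : Bdd c E Q) (n S : ℕ) :
    ∃ F : K[X], F.eval 0 = 1 ∧ Den c F ∧ ∀ (p : Pt D K c n) (y : p.L), p.v y ≤ 1 →
      p.v (algebraMap D p.L c) ^ S ≤ p.v y → p.v (aeval y F) ≤ p.v (algebraMap D p.L c) := by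
  set N := (Q ^ n).factorial with hN
  set Λ := (n * E).factorial with hΛ
  have hN0 : 0 < N := Nat.factorial_pos _
  have hΛ0 : 0 < Λ := Nat.factorial_pos _
  have hcK : algebraMap D K c ≠ 0 := by
    rw [Ne, map_eq_zero_iff _ (IsFractionRing.injective D K)]; exact hc0
  have main : ∀ j : ℕ, j ≤ S * Λ + 1 → ∃ F : K[X], F.eval 0 = 1 ∧ Den c F ∧
      ∀ (p : Pt D K c n) (y : p.L) (R : ℕ), p.v y ≤ 1 →
        p.v y ^ Λ = p.v (algebraMap D p.L c) ^ R → S * Λ + 1 - j ≤ R → R ≤ S * Λ →
        p.v (aeval y F) ≤ p.v (algebraMap D p.L c) := by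
    intro j
    induction j with
    | zero =>
      intro _
      refine ⟨1, by simp, by simpa using Den.of_map (K := K) c (1 : D[X]), ?_⟩
      intro p y R _ _ h1 h2
      omega
    | succ j ih =>
      intro hj
      obtain ⟨F, hF0, hFden, hF⟩ := ih (by omega)
      obtain ⟨k, H, hH⟩ := id hFden
      set R0 := S * Λ + 1 - (j + 1) with hR0
      set B : K[X] := 1 - (C ((algebraMap D K c ^ R0)⁻¹) * X ^ Λ) ^ N with hBdef
      set M := (n * E) * (k + 1) with hM
      refine ⟨F * B ^ M, ?_, ?_, ?_⟩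
      · rw [eval_mul, hF0, eval_pow, hBdef]
        simp [hΛ0.ne', hN0.ne']
      · apply hFden.mul
        apply Den.pow
        refine ⟨R0 * N, C (c ^ (R0 * N)) - X ^ (Λ * N), ?_⟩
        rw [Polynomial.map_sub, Polynomial.map_C, Polynomial.map_pow, Polynomial.map_X, map_pow, hBdef,
          mul_sub, mul_one, mul_pow, ← C_pow, ← mul_assoc, ← C_mul, ← pow_mul, inv_pow, ← pow_mul,
          mul_inv_cancel₀ (pow_ne_zero _ hcK), C_1, one_mul]
      · intro p y R hy hyR hR1 hR2
        obtain ⟨_, hb, hcc⟩ := p.facts hc0 hB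
        have hvc0 : p.v (algebraMap D p.L c) ≠ 0 := by
          rw [Ne, map_eq_zero, map_eq_zero_iff _ p.inj]; exact hc0
        have hvcpos : 0 < p.v (algebraMap D p.L c) := zero_lt_iff.mpr hvc0
        set w : p.L := (algebraMap D p.L c ^ R0)⁻¹ * y ^ Λ with hw
        have hBy : aeval y B = 1 - w ^ N := by
          rw [hBdef, map_sub, map_one, map_pow, map_mul, aeval_C, map_pow, aeval_X, map_inv₀, map_pow,
            ← IsScalarTower.algebraMap_apply D K p.L]
        rw [map_mul, map_mul, map_pow, map_pow, hBy]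
        by_cases hRR : R = R0
        · have hw1 : p.v w = 1 := by
            rw [hw, map_mul, map_inv₀, map_pow, map_pow, hyR, hRR, inv_mul_cancel₀ (pow_ne_zero _ hvc0)]
          have h1 : p.v (1 - w ^ N) < 1 := by
            rw [Valuation.map_sub_swap]; exact hcc w hw1
          have h2 := hb _ h1
          have h3 : p.v (1 - w ^ N) ^ M ≤ p.v (algebraMap D p.L c) ^ (k + 1) := by
            rw [hM, pow_mul]
            exact pow_le_pow_left' h2 _
          have h4 := Den.val hH p.v p.hv hy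
          calc p.v (aeval y F) * p.v (1 - w ^ N) ^ M
              ≤ p.v (aeval y F) * p.v (algebraMap D p.L c) ^ (k + 1) := by gcongr
            _ = (p.v (algebraMap D p.L c) ^ k * p.v (aeval y F)) * p.v (algebraMap D p.L c) := by
                rw [pow_succ, ← mul_assoc, mul_comm (p.v (aeval y F))]
            _ ≤ 1 * p.v (algebraMap D p.L c) := by gcongr
            _ = _ := one_mul _
        · have hlt : R0 < R := by omega
          have h1 := hF p y R hy hyR (by omega) hR2
          have hw1 : p.v w ≤ 1 := by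
            have : p.v (algebraMap D p.L c) ^ R =
                p.v (algebraMap D p.L c) ^ R0 * p.v (algebraMap D p.L c) ^ (R - R0) := by
              rw [← pow_add]; congr 1; omega
            rw [hw, map_mul, map_inv₀, map_pow, map_pow, hyR, this, ← mul_assoc,
              inv_mul_cancel₀ (pow_ne_zero _ hvc0), one_mul]
            exact pow_le_one' p.hc.le _
          have h2 : p.v (1 - w ^ N) ≤ 1 := by
            apply p.v.map_sub_le
            · rw [map_one]
            · rw [map_pow]; exact pow_le_one' hw1 _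
          calc p.v (aeval y F) * p.v (1 - w ^ N) ^ M ≤ p.v (algebraMap D p.L c) * 1 := by
                gcongr
                exact pow_le_one' h2 _
            _ = _ := mul_one _
  obtain ⟨F, hF0, hFden, hF⟩ := main (S * Λ + 1) le_rfl
  refine ⟨F, hF0, hFden, ?_⟩
  intro p y hy hyS
  have hvc0 : p.v (algebraMap D p.L c) ≠ 0 := by
    rw [Ne, map_eq_zero, map_eq_zero_iff _ p.inj]; exact hc0
  have hvcpos : 0 < p.v (algebraMap D p.L c) := zero_lt_iff.mpr hvc0
  have hy0 : y ≠ 0 := by
    rintro rfl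
    rw [map_zero] at hyS
    exact absurd (le_zero_iff.mp hyS) (pow_ne_zero _ hvc0)
  obtain ⟨hd, _, _⟩ := p.facts hc0 hB
  obtain ⟨R, hR⟩ := hd y hy0
  rw [← hΛ] at hR
  have hR0 : 0 ≤ R := by
    by_contra hcon
    rw [not_le] at hcon
    have h1 : p.v y ^ Λ ≤ 1 := pow_le_one' hy _
    rw [hR] at h1
    have h2 : (1 : p.Γ) < p.v (algebraMap D p.L c) ^ R := one_lt_zpow_of_neg₀ hvcpos p.hc hcon
    exact absurd h1 (not_le.mpr h2)
  obtain ⟨R', rfl⟩ := Int.eq_ofNat_of_zero_le hR0
  rw [zpow_natCast] at hR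
  refine hF p y R' hy hR (by omega) ?_
  by_contra hcon
  rw [not_le] at hcon
  have h1 : (p.v (algebraMap D p.L c) ^ S) ^ Λ ≤ p.v y ^ Λ := pow_le_pow_left' hyS _
  rw [hR, ← pow_mul] at h1
  exact absurd h1 (not_le.mpr (pow_lt_pow_right_of_lt_one₀ hvcpos p.hc hcon))

end Pool.Agent.R676.Pruf
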