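import Mathlib
import Pool.Agent.R676.PrufC

/-!
# Pairs of coprime polynomials are locally principal over the ring of polynomials which are integral
# on all integral elements of degree `≤ n`
-/

open Polynomial IsLocalRing

namespace Pool.Agent.R676.Pruf

set_option linter.unusedSectionVars false

universe u v

variable (D : Type u) (K : Type v) [CommRing D] [IsDomain D] [Field K] [Algebra D K]

/-- the polynomials whose values at all integral elements of degree `≤ n` over `K` are integral -/
def IntDeg (n : ℕ) : Set K[X] :=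
  {f | ∀ (L : Type v) [Field L] [Algebra K L] [Algebra D L] [IsScalarTower D K L]
    [FiniteDimensional K L], Module.finrank K L ≤ n → ∀ y : L, IsIntegral D y →
      IsIntegral D (aeval y f)}

variable {D K}

theorem isIntegral_of_forall_valuation {L : Type v} [Field L] [Algebra D L] (z : L)
    (h : ∀ V : ValuationSubring L, (∀ x : D, algebraMap D L x ∈ V) → z ∈ V) : IsIntegral D z := by
  by_contra hz
  have hz' : z ∉ (integralClosure D L).toSubring := hz
  have hcl : IsIntegrallyClosedIn (integralClosure D L).toSubring L :=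
    inferInstanceAs (IsIntegrallyClosedIn (integralClosure D L) L)
  obtain ⟨V, hV, hzV⟩ := Subring.exists_le_valuationSubring_of_isIntegrallyClosedIn hz'
  exact hzV (h V fun x => hV ((integralClosure D L).algebraMap_mem x))

theorem mem_of_isIntegral' {L : Type v} [Field L] [Algebra D L] {y : L} (hy : IsIntegral D y)
    (V : ValuationSubring L) (hV : ∀ x : D, algebraMap D L x ∈ V) : y ∈ V := by
  have h1 : IsIntegral V y := by
    let φ : D →+* V := (algebraMap D L).codRestrict V.toSubring hV
    have := hy.map_of_comp_eq φ (RingHom.id L) (by ext; rfl)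
    simpa using this
  obtain ⟨w, hw⟩ := IsIntegrallyClosed.isIntegral_iff.mp h1
  rw [← hw]; exact w.2

variable [IsFractionRing D K]

/-- The main lemma on pairs. -/
theorem pair_lemma {c : D} (hc0 : c ≠ 0) {E Q : ℕ} (hB : Bdd c E Q) (n : ℕ) (f g α β : D[X])
    (hfg : α * f + β * g = C c) :
    ∃ r s : K[X], r * f.map (algebraMap D K) + s * g.map (algebraMap D K) = 1 ∧
      r * f.map (algebraMap D K) ∈ IntDeg D K n ∧ r * g.map (algebraMap D K) ∈ IntDeg D K n ∧
      s * f.map (algebraMap D K) ∈ IntDeg D K n ∧ s * g.map (algebraMap D K) ∈ IntDeg D K n := by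
  classical
  set N := (Q ^ n).factorial with hN
  have hN0 : 0 < N := Nat.factorial_pos _
  have hcK : algebraMap D K c ≠ 0 := by
    rw [Ne, map_eq_zero_iff _ (IsFractionRing.injective D K)]; exact hc0
  obtain ⟨F, hF0, hFden, hF⟩ := exists_annulus (K := K) hc0 hB n (N + 1)
  -- the form
  set G : D[X] := f ^ (N + 1) - f * g ^ N + g ^ (N + 1) with hG
  set U : D[X] := f ^ N - g ^ N with hU
  have hGU : G = U * f + g ^ N * g := by rw [hG, hU]; ring
  set ι := algebraMap D K with hι
  -- the inverse
  obtain ⟨I, hI⟩ : ∃ I : K[X], 1 - F = X * I := by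
    rw [← dvd_def, X_dvd_iff, coeff_sub, coeff_one_zero, coeff_zero_eq_eval_zero, hF0, sub_self]
  have hIden : Den c I := by
    obtain ⟨k, H, hH⟩ := hFden
    refine ⟨k, (C (c ^ k) - H).divX, ?_⟩
    have h1 : (C (c ^ k) - H).map ι = X * (C (ι c ^ k) * I) := by
      rw [Polynomial.map_sub, hH, Polynomial.map_C, map_pow]
      calc C (ι c ^ k) - C (ι c ^ k) * F = C (ι c ^ k) * (1 - F) := by ring
        _ = _ := by rw [hI]; ring
    ext i
    rw [coeff_map, coeff_divX, ← coeff_map, h1, coeff_X_mul]
  set J : K[X] := I.comp (G.map ι) with hJ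
  set F1 : K[X] := F.comp (G.map ι) with hF1
  have hJF : J * G.map ι = 1 - F1 := by
    have := congrArg (fun q => q.comp (G.map ι)) hI
    simp only [sub_comp, one_comp, mul_comp, X_comp] at this
    rw [hJ, hF1, this, mul_comm]
  have hcomp : ∀ h : K[X], Den c h → Den c (h.comp (G.map ι)) := by
    rintro h ⟨k, H, hH⟩
    refine ⟨k, H.comp G, ?_⟩
    rw [Polynomial.map_comp, hH, mul_comp, C_comp]
  set F2 : K[X] := C ((ι c)⁻¹) * F1 with hF2
  have hF2den : Den c F2 := by
    apply Den.mul
    · refine ⟨1, 1, ?_⟩
      rw [pow_one, ← C_mul, mul_inv_cancel₀ hcK]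
      simp
    · exact hcomp F hFden
  set r : K[X] := J * U.map ι + F2 * α.map ι with hr
  set s : K[X] := J * (g ^ N).map ι + F2 * β.map ι with hs
  -- the values of `G`
  have hpolyp : ∀ (p : Pt D K c n) (y : p.L), p.v y ≤ 1 → ∀ q : D[X], p.v (aeval y q) ≤ 1 := by
    intro p y hy q
    rw [aeval_eq_sum_range]
    apply p.v.map_sum_le
    intro i _
    rw [Algebra.smul_def, map_mul, map_pow]
    exact mul_le_one' (p.hv _) (pow_le_one' hy i)
  have hmaxc : ∀ (p : Pt D K c n) (y : p.L), p.v y ≤ 1 → p.v (algebraMap D p.L c) ≤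
      max (p.v (aeval y f)) (p.v (aeval y g)) := by
    intro p y hy
    have h1 := congrArg (aeval y) hfg
    rw [map_add, map_mul, map_mul, aeval_C] at h1
    rw [← h1]
    refine (p.v.map_add _ _).trans ?_
    rw [map_mul, map_mul]
    apply max_le_max
    · calc _ ≤ 1 * p.v (aeval y f) := by gcongr; exact hpolyp p y hy α
        _ = _ := one_mul _
    · calc _ ≤ 1 * p.v (aeval y g) := by gcongr; exact hpolyp p y hy β
        _ = _ := one_mul _
  have hmaxp : ∀ (p : Pt D K c n) (y : p.L), p.v y ≤ 1 → p.v (aeval y G) =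
      max (p.v (aeval y f)) (p.v (aeval y g)) ^ (N + 1) := by
    intro p y hy
    have hmax := hmaxc p y hy
    obtain ⟨_, _, hcc⟩ := p.facts hc0 hB
    have hvc0 : p.v (algebraMap D p.L c) ≠ 0 := by
      rw [Ne, map_eq_zero, map_eq_zero_iff _ p.inj]; exact hc0
    have hvcpos : 0 < p.v (algebraMap D p.L c) := zero_lt_iff.mpr hvc0
    set a := aeval y f with ha
    set b := aeval y g with hb
    have hGy : aeval y G = a ^ (N + 1) - a * b ^ N + b ^ (N + 1) := by
      rw [hG]; simp [ha, hb]
    rw [hGy]
    rcases lt_or_ge (p.v b) (p.v a) with hab | hab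
    · rw [max_eq_left hab.le]
      have ha0 : a ≠ 0 := by
        rintro h0
        rw [h0, map_zero] at hab
        exact absurd hab (not_lt.mpr zero_le)
      have hva : 0 < p.v a := zero_lt_iff.mpr (by rwa [Ne, map_eq_zero])
      have h1 : a ^ (N + 1) - a * b ^ N + b ^ (N + 1) =
          a ^ (N + 1) + (b ^ (N + 1) - a * b ^ N) := by ring
      have h2 : p.v (b ^ (N + 1) - a * b ^ N) < p.v (a ^ (N + 1)) := by
        apply p.v.map_sub_lt
        · rw [map_pow, map_pow]
          exact pow_lt_pow_left₀ hab zero_le (by omega)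
        · rw [map_mul, map_pow, map_pow, pow_succ' (p.v a)]
          exact mul_lt_mul_of_pos_left (pow_lt_pow_left₀ hab zero_le hN0.ne') hva
      rw [h1, p.v.map_add_eq_of_lt_left h2, map_pow]
    · rw [max_eq_right hab]
      have hb0 : b ≠ 0 := by
        intro h0
        rw [h0, map_zero] at hab
        rw [h0, map_zero, max_eq_left zero_le] at hmax
        exact absurd (hmax.trans hab) (not_le.mpr hvcpos)
      have hvb0 : p.v b ≠ 0 := by rwa [Ne, map_eq_zero]
      set z := a / b with hz
      have hza : a = z * b := by rw [hz, div_mul_cancel₀ _ hb0]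
      have hvz : p.v z ≤ 1 := by
        rw [hz, map_div₀, div_le_one₀ (zero_lt_iff.mpr hvb0)]; exact hab
      have h1 : a ^ (N + 1) - a * b ^ N + b ^ (N + 1) = (1 + z * (z ^ N - 1)) * b ^ (N + 1) := by
        rw [hza]; ring
      rw [h1, map_mul, map_pow]
      have h2 : p.v (z * (z ^ N - 1)) < 1 := by
        rw [map_mul]
        rcases lt_or_eq_of_le hvz with h | h
        · calc p.v z * p.v (z ^ N - 1) ≤ p.v z * 1 := by
                gcongr
                apply p.v.map_sub_le
                · rw [map_pow]; exact pow_le_one' hvz _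
                · rw [map_one]
            _ < 1 := by rwa [mul_one]
        · rw [h, one_mul]
          exact hcc z h
      have h3 : p.v (1 + z * (z ^ N - 1)) = 1 := by
        rw [p.v.map_add_eq_of_lt_left (by rwa [map_one]), map_one]
      rw [h3, one_mul]
  -- the products
  have hval : ∀ (T A h : D[X]), (∀ (p : Pt D K c n) (y : p.L), p.v y ≤ 1 →
      p.v (aeval y T) * p.v (aeval y h) ≤ p.v (aeval y G)) →
      (J * T.map ι + F2 * A.map ι) * h.map ι ∈ IntDeg D K n := by
    intro T A h hT L _ _ _ _ _ hn y hy
    apply isIntegral_of_forall_valuation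
    intro V hV
    have hyV := mem_of_isIntegral' hy V hV
    rw [← ValuationSubring.valuation_le_one_iff] at hyV ⊢
    have hv : ∀ x : D, V.valuation (algebraMap D L x) ≤ 1 := fun x =>
      (ValuationSubring.valuation_le_one_iff V _).mpr (hV x)
    have hpoly : ∀ q : D[X], V.valuation (aeval y q) ≤ 1 := by
      intro q
      rw [aeval_eq_sum_range]
      apply V.valuation.map_sum_le
      intro i _
      rw [Algebra.smul_def, map_mul, map_pow]
      exact mul_le_one' (hv _) (pow_le_one' hyV i)
    rcases lt_or_eq_of_le (hv c) with hc | hc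
    · let p : Pt D K c n := { L := L, hn := hn, Γ := V.ValueGroup, v := V.valuation, hv := hv, hc := hc }
      have hvc0 : V.valuation (algebraMap D L c) ≠ 0 := by
        rw [Ne, map_eq_zero, map_eq_zero_iff _ p.inj]; exact hc0
      have hvcpos : 0 < V.valuation (algebraMap D L c) := zero_lt_iff.mpr hvc0
      have hmax := hmaxc p y hyV
      have hGval := hmaxp p y hyV
      have hG1 : V.valuation (aeval y G) ≤ 1 := hpoly G
      have hG2 : V.valuation (algebraMap D L c) ^ (N + 1) ≤ V.valuation (aeval y G) := by
        exact (pow_le_pow_left' hmax _).trans hGval.ge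
      have hFy := hF p (aeval y G) hG1 hG2
      have hGy : aeval y (G.map ι) = aeval y G := aeval_map_algebraMap K y G
      have hJy : V.valuation (aeval y J) * V.valuation (aeval y G) ≤ 1 := by
        rw [← map_mul, ← hGy, ← map_mul, hJF, map_sub, map_one]
        apply V.valuation.map_sub_le
        · rw [map_one]
        · rw [hF1, aeval_comp, hGy]
          exact hFy.trans hc.le
      have hF2y : V.valuation (aeval y F2) ≤ 1 := by
        rw [hF2, map_mul, aeval_C, hF1, aeval_comp, hGy, map_inv₀, map_mul, map_inv₀,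
          ← IsScalarTower.algebraMap_apply D K L]
        calc _ ≤ (V.valuation (algebraMap D L c))⁻¹ * V.valuation (algebraMap D L c) := by
              gcongr
          _ = 1 := inv_mul_cancel₀ hvc0
      have haev : ∀ q : D[X], aeval y (q.map ι) = aeval y q := fun q => aeval_map_algebraMap K y q
      rw [add_mul, map_add]
      refine (V.valuation.map_add _ _).trans (max_le ?_ ?_)
      · simp only [map_mul, haev]
        rw [mul_assoc]
        calc _ ≤ V.valuation (aeval y J) * V.valuation (aeval y G) := by
              gcongr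
              exact hT p y hyV
          _ ≤ 1 := hJy
      · simp only [map_mul, haev]
        exact mul_le_one' (mul_le_one' hF2y (hpoly _)) (hpoly _)
    · -- `c` is a unit
      have hden : Den c ((J * T.map ι + F2 * A.map ι) * h.map ι) :=
        (((hcomp I hIden).mul (Den.of_map c T)).add (hF2den.mul (Den.of_map c A))).mul
          (Den.of_map c h)
      obtain ⟨k, H, hH⟩ := hden
      have := Den.val hH V.valuation hv hyV
      rwa [hc, one_pow, one_mul] at this
  have hTU : ∀ (T h : D[X]), (T = U ∨ T = g ^ N) → (h = f ∨ h = g) →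
      ∀ (p : Pt D K c n) (y : p.L), p.v y ≤ 1 →
      p.v (aeval y T) * p.v (aeval y h) ≤ p.v (aeval y G) := by
    intro T h hT hh p y hy
    rw [hmaxp p y hy, pow_succ]
    set m := max (p.v (aeval y f)) (p.v (aeval y g)) with hm
    have h1 : p.v (aeval y f) ≤ m := le_max_left _ _
    have h2 : p.v (aeval y g) ≤ m := le_max_right _ _
    have h3 : p.v (aeval y T) ≤ m ^ N := by
      rcases hT with rfl | rfl
      · rw [hU, map_sub, map_pow, map_pow]
        apply p.v.map_sub_le
        · rw [map_pow]; exact pow_le_pow_left' h1 _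
        · rw [map_pow]; exact pow_le_pow_left' h2 _
      · rw [map_pow, map_pow]; exact pow_le_pow_left' h2 _
    have h4 : p.v (aeval y h) ≤ m := by
      rcases hh with rfl | rfl
      · exact h1
      · exact h2
    exact mul_le_mul' h3 h4
  refine ⟨r, s, ?_, ?_, ?_, ?_, ?_⟩
  · have h1 : α.map ι * f.map ι + β.map ι * g.map ι = C (ι c) := by
      rw [← Polynomial.map_mul, ← Polynomial.map_mul, ← Polynomial.map_add, hfg, Polynomial.map_C]
    have h2 : U.map ι * f.map ι + (g ^ N).map ι * g.map ι = G.map ι := by
      rw [← Polynomial.map_mul, ← Polynomial.map_mul, ← Polynomial.map_add, ← hGU]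
    have h3 : F2 * C (ι c) = F1 := by
      rw [hF2, mul_comm, ← mul_assoc, ← C_mul, mul_inv_cancel₀ hcK, C_1, one_mul]
    calc r * f.map ι + s * g.map ι = J * (U.map ι * f.map ι + (g ^ N).map ι * g.map ι) +
          F2 * (α.map ι * f.map ι + β.map ι * g.map ι) := by rw [hr, hs]; ring
      _ = 1 := by rw [h1, h2, h3, hJF]; ring
  · exact hval U α f (hTU _ _ (Or.inl rfl) (Or.inl rfl))
  · exact hval U α g (hTU _ _ (Or.inl rfl) (Or.inr rfl))
  · exact hval (g ^ N) β f (hTU _ _ (Or.inr rfl) (Or.inl rfl))
  · exact hval (g ^ N) β g (hTU _ _ (Or.inr rfl) (Or.inr rfl))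

end Pool.Agent.R676.Pruf
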