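import Mathlib
import Pool.Agent.R676.PrufD

/-!
# From pairs to finitely generated ideals, bounds, and integrality of values
-/

open Polynomial IsLocalRing

namespace Pool.Agent.R676.Pruf

set_option linter.unusedSectionVars false

universe u v w

section Pair

variable {D : Type u} {K : Type v} [CommRing D] [IsDomain D] [Field K] [Algebra D K]
  [IsFractionRing D K]

/-- Rings of polynomials containing `IntDeg D K n` are arithmetical. -/
theorem pair_prop (hall : ∀ c : D, c ≠ 0 → ∃ E Q, Bdd c E Q) (n : ℕ) (R : Set K[X])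
    (h0R : (0 : K[X]) ∈ R) 
    (hR : IntDeg D K n ⊆ R) (f g : K[X]) :
    ∃ t ∈ R, ∃ a ∈ R, ∃ b ∈ R, t * f = a * g ∧ (1 - t) * g = b * f := by
  classical
  by_cases hg : g = 0
  · exact ⟨0, h0R, 0, h0R, 0, h0R, by simp [hg]⟩
  -- the gcd
  obtain ⟨h, hh⟩ := (IsPrincipalIdealRing.principal (Ideal.span {f, g})).principal
  have hfh : f ∈ Ideal.span {h} := by
    have : f ∈ Ideal.span {f, g} := Ideal.subset_span (by simp)
    rw [hh] at this; exact this
  have hgh : g ∈ Ideal.span {h} := by
    have : g ∈ Ideal.span {f, g} := Ideal.subset_span (by simp)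
    rw [hh] at this; exact this
  have hhm : h ∈ Ideal.span {f, g} := by
    rw [hh]; exact Submodule.mem_span_singleton_self h
  obtain ⟨f1, hf1⟩ := Ideal.mem_span_singleton'.mp hfh
  obtain ⟨g1, hg1⟩ := Ideal.mem_span_singleton'.mp hgh
  obtain ⟨x, y, hxy⟩ := Ideal.mem_span_pair.mp hhm
  have hh0 : h ≠ 0 := by
    rintro rfl
    apply hg
    rw [← hg1, mul_zero]
  have hco : x * f1 + y * g1 = 1 := by
    apply mul_right_cancel₀ hh0
    rw [one_mul, add_mul, mul_assoc, mul_assoc, hf1, hg1, hxy]
  -- clear denominators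
  have hclear : ∀ q : K[X], ∃ (δ : D) (H : D[X]), δ ≠ 0 ∧
      H.map (algebraMap D K) = C (algebraMap D K δ) * q := by
    intro q
    obtain ⟨b, hb, hb'⟩ := IsLocalization.integerNormalization_spec (nonZeroDivisors D) q
    refine ⟨b, IsLocalization.integerNormalization (nonZeroDivisors D) q,
      nonZeroDivisors.ne_zero hb, ?_⟩
    rw [hb', algebra_compatible_smul K b q, smul_eq_C_mul]
  obtain ⟨δ1, F1, hδ1, hF1⟩ := hclear f1
  obtain ⟨δ2, G1, hδ2, hG1⟩ := hclear g1
  obtain ⟨δ3, A1, hδ3, hA1⟩ := hclear x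
  obtain ⟨δ4, B1, hδ4, hB1⟩ := hclear y
  set c : D := δ1 * δ2 * (δ3 * δ4) with hc
  have hc0 : c ≠ 0 := mul_ne_zero (mul_ne_zero hδ1 hδ2) (mul_ne_zero hδ3 hδ4)
  obtain ⟨E, Q, hB⟩ := hall c hc0
  set ι := algebraMap D K with hι
  have hinj : Function.Injective ι := IsFractionRing.injective D K
  have hmapinj : Function.Injective (Polynomial.map ι) := Polynomial.map_injective ι hinj
  have hrel : (C δ4 * A1) * (C δ2 * F1) + (C δ3 * B1) * (C δ1 * G1) = C c := by
    apply hmapinj
    simp only [Polynomial.map_add, Polynomial.map_mul, Polynomial.map_C, hF1, hG1, hA1, hB1]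
    rw [hc]
    simp only [map_mul]
    linear_combination (C (ι δ1) * C (ι δ2) * C (ι δ3) * C (ι δ4)) * hco
  obtain ⟨r, s, hrs, h1, h2, h3, h4⟩ := pair_lemma (K := K) hc0 hB n _ _ _ _ hrel
  have hF : (C δ2 * F1).map ι = C (ι δ1 * ι δ2) * f1 := by
    rw [Polynomial.map_mul, hF1, Polynomial.map_C, C_mul]; ring
  have hG : (C δ1 * G1).map ι = C (ι δ1 * ι δ2) * g1 := by
    rw [Polynomial.map_mul, hG1, Polynomial.map_C, C_mul]; ring
  set F2 := (C δ2 * F1).map ι with hF2
  set G2 := (C δ1 * G1).map ι with hG2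
  have hcross : G2 * f = F2 * g := by
    rw [← hf1, ← hg1, hF, hG]; ring
  refine ⟨s * G2, hR h4, s * F2, hR h3, r * G2, hR h2, ?_, ?_⟩
  · rw [mul_assoc, hcross]; ring
  · have : 1 - s * G2 = r * F2 := by rw [← hrs]; ring
    rw [this, mul_assoc, ← hcross]; ring

end Pair

section Ideals

variable {R : Type*} [CommRing R] [IsDomain R]

/-- an ideal which divides a nonzero principal ideal -/
def Inv (I : Ideal R) : Prop := ∃ (J : Ideal R) (d : R), d ≠ 0 ∧ I * J = Ideal.span {d}

theorem Inv.mul {I J : Ideal R} (hI : Inv I) (hJ : Inv J) : Inv (I * J) := by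
  obtain ⟨I', d, hd, hI⟩ := hI
  obtain ⟨J', e, he, hJ⟩ := hJ
  refine ⟨I' * J', d * e, mul_ne_zero hd he, ?_⟩
  rw [← Ideal.span_singleton_mul_span_singleton, ← hI, ← hJ]
  ring

theorem Inv.of_mul {I J : Ideal R} (h : Inv (I * J)) : Inv I := by
  obtain ⟨J', d, hd, h⟩ := h
  exact ⟨J * J', d, hd, by rw [← mul_assoc, h]⟩

theorem Inv.span_singleton {x : R} (hx : x ≠ 0) : Inv (Ideal.span {x}) :=
  ⟨⊤, x, hx, by rw [Ideal.mul_top]⟩

theorem Inv.pair (hpair : ∀ x y : R, ∃ t a b : R, t * x = a * y ∧ (1 - t) * y = b * x) {x y : R}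
    (hx : x ≠ 0) (hy : y ≠ 0) : Inv (Ideal.span {x} + Ideal.span {y}) := by
  obtain ⟨t, a, b, h1, h2⟩ := hpair x y
  refine ⟨Ideal.span {t * x} + Ideal.span {(1 - t) * y}, x * y, mul_ne_zero hx hy, ?_⟩
  rw [add_mul, mul_add, mul_add, Ideal.span_singleton_mul_span_singleton,
    Ideal.span_singleton_mul_span_singleton, Ideal.span_singleton_mul_span_singleton,
    Ideal.span_singleton_mul_span_singleton]
  apply le_antisymm
  · simp only [Submodule.add_eq_sup, sup_le_iff, Ideal.span_singleton_le_span_singleton]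
    refine ⟨⟨⟨a, ?_⟩, ⟨1 - t, ?_⟩⟩, ⟨t, ?_⟩, ⟨b, ?_⟩⟩
    · rw [h1]; ring
    · ring
    · ring
    · rw [h2]; ring
  · rw [Ideal.span_singleton_le_iff_mem]
    have h3 : x * y = y * (t * x) + x * ((1 - t) * y) := by ring
    rw [h3]
    apply Ideal.add_mem
    · exact Submodule.mem_sup_right (Submodule.mem_sup_left (Ideal.mem_span_singleton_self _))
    · exact Submodule.mem_sup_left (Submodule.mem_sup_right (Ideal.mem_span_singleton_self _))

theorem three_identity (A B C : Ideal R) :
    (A + B) * ((B + C) * (C + A)) = (A + B + C) * (A * B + B * C + C * A) := by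
  have h1 : A * B * C + A * B * C = A * B * C := by rw [Submodule.add_eq_sup, sup_idem]
  calc (A + B) * ((B + C) * (C + A)) = A * A * B + A * A * C + A * B * B + B * B * C + A * C * C +
        B * C * C + (A * B * C + A * B * C) := by ring
    _ = A * A * B + A * A * C + A * B * B + B * B * C + A * C * C + B * C * C +
        (A * B * C + A * B * C + A * B * C) := by rw [h1, h1]
    _ = (A + B + C) * (A * B + B * C + C * A) := by ring

theorem inv_span_finset
    (hpair : ∀ x y : R, ∃ t a b : R, t * x = a * y ∧ (1 - t) * y = b * x) :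
    ∀ (k : ℕ) (s : Finset R), s.card ≤ k → (∀ x ∈ s, x ≠ 0) → s.Nonempty →
      Inv (Ideal.span (s : Set R)) := by
  classical
  intro k
  induction k with
  | zero =>
    intro s hs _ hne
    rw [Nat.le_zero, Finset.card_eq_zero] at hs
    rw [hs] at hne
    exact absurd hne Finset.not_nonempty_empty
  | succ k ih =>
    intro s hs h0 hne
    by_cases hk : s.card ≤ k
    · exact ih s hk h0 hne
    have hcard : s.card = k + 1 := by omega
    obtain ⟨b, hb⟩ := hne
    set s1 := s.erase b with hs1
    have hs1c : s1.card = k := by rw [hs1, Finset.card_erase_of_mem hb, hcard]; rfl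
    have hspan1 : Ideal.span (s : Set R) = Ideal.span (s1 : Set R) + Ideal.span {b} := by
      rw [← Finset.insert_erase hb, Finset.coe_insert, Ideal.span_insert, Submodule.add_eq_sup,
        sup_comm]
    by_cases hs1e : s1 = ∅
    · rw [hspan1, hs1e]
      simpa using Inv.span_singleton (h0 b hb)
    obtain ⟨c, hc⟩ := Finset.nonempty_iff_ne_empty.mpr hs1e
    set s2 := s1.erase c with hs2
    have hspan2 : Ideal.span (s1 : Set R) = Ideal.span (s2 : Set R) + Ideal.span {c} := by
      rw [← Finset.insert_erase hc, Finset.coe_insert, Ideal.span_insert, Submodule.add_eq_sup,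
        sup_comm]
    have hcs : c ∈ s := Finset.mem_of_mem_erase hc
    by_cases hs2e : s2 = ∅
    · rw [hspan1, hspan2, hs2e]
      simpa using Inv.pair hpair (h0 c hcs) (h0 b hb)
    -- at least three generators
    have hs2n := Finset.nonempty_iff_ne_empty.mpr hs2e
    have hs2s : ∀ x ∈ s2, x ∈ s := fun x hx => Finset.mem_of_mem_erase (Finset.mem_of_mem_erase hx)
    have hs2c : s2.card = k - 1 := by rw [hs2, Finset.card_erase_of_mem hc, hs1c]
    have hs2pos : 0 < s2.card := Finset.card_pos.mpr hs2n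
    have hA1 : Inv (Ideal.span (s2 : Set R) + Ideal.span {c}) := by
      rw [← hspan2]
      exact ih s1 hs1c.le (fun x hx => h0 x (Finset.mem_of_mem_erase hx)) ⟨c, hc⟩
    have hA2 : Inv (Ideal.span {b} + Ideal.span (s2 : Set R)) := by
      have h1 : Ideal.span {b} + Ideal.span (s2 : Set R) = Ideal.span ((insert b s2 : Finset R) : Set R) := by
        rw [Finset.coe_insert, Ideal.span_insert, Submodule.add_eq_sup]
      rw [h1]
      apply ih
      · exact (Finset.card_insert_le _ _).trans (by omega)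
      · intro x hx
        rw [Finset.mem_insert] at hx
        rcases hx with rfl | hx
        · exact h0 x hb
        · exact h0 x (hs2s x hx)
      · exact Finset.insert_nonempty _ _
    have hA3 : Inv (Ideal.span {c} + Ideal.span {b}) := Inv.pair hpair (h0 c hcs) (h0 b hb)
    have h5 := hA1.mul (hA3.mul hA2)
    rw [three_identity] at h5
    rw [hspan1, hspan2]
    exact h5.of_mul

/-- Every nonzero finitely generated ideal divides a nonzero principal ideal. -/
theorem inv_of_fg (hpair : ∀ x y : R, ∃ t a b : R, t * x = a * y ∧ (1 - t) * y = b * x)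
    (I : Ideal R) (hI : I.FG) (hI0 : I ≠ ⊥) : Inv I := by
  classical
  obtain ⟨s, rfl⟩ := hI
  have h1 : Ideal.span (s : Set R) = Ideal.span ((s.erase 0 : Finset R) : Set R) := by
    apply le_antisymm
    · rw [Ideal.span_le]
      intro x hx
      by_cases hx0 : x = 0
      · rw [hx0]; exact Ideal.zero_mem _
      · exact Ideal.subset_span (by simpa [hx0] using hx)
    · exact Ideal.span_mono (by simp)
  have h2 : (s.erase 0).Nonempty := by
    rw [Finset.nonempty_iff_ne_empty]
    intro h
    apply hI0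
    change Ideal.span (s : Set R) = ⊥
    rw [h1, h]
    simp
  change Inv (Ideal.span (s : Set R))
  rw [h1]
  exact inv_span_finset hpair _ _ le_rfl (fun x hx => Finset.ne_of_mem_erase hx) h2

end Ideals

end Pool.Agent.R676.Pruf
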