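import Mathlib
import Pool.Agent.R676.PrufE

/-!
# Bounds at the primes containing an element, and integrality of the values of polynomials
-/

open Polynomial IsLocalRing

namespace Pool.Agent.R676.Pruf

set_option linter.unusedSectionVars false

universe u v w

section Bounds

variable {D : Type u} [CommRing D] [IsDomain D]

theorem exists_bdd (hdvr : ∀ (P : Ideal D) [P.IsMaximal],
      IsDiscreteValuationRing (Localization.AtPrime P))
    (hfin : ∀ P : Ideal D, P.IsMaximal → Finite (D ⧸ P))
    (D0 : Subring D) [UniqueFactorizationMonoid D0] [Infinite D0]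
    (hb : ∀ t : D0, Prime t → ∃ m : ℕ, ∀ (P : Ideal D) [P.IsMaximal], (t : D) ∈ P →
      (haveI := hdvr P; IsDiscreteValuationRing.addVal (Localization.AtPrime P)
        (algebraMap D _ (t : D)) ≤ m) ∧ Nat.card (D ⧸ P) ≤ m)
    (c : D) (hc0 : c ≠ 0) : ∃ E Q, Bdd c E Q := by
  classical
  have hinj : ∀ (P : Ideal D) [P.IsMaximal], Function.Injective
      (algebraMap D (Localization.AtPrime P)) := fun P _ =>
    IsLocalization.injective (Localization.AtPrime P) P.primeCompl_le_nonZeroDivisors
  -- `c` divides a nonzero element of `D0`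
  obtain ⟨z, hz0, hcz⟩ : ∃ z : D0, z ≠ 0 ∧ c ∣ (z : D) := by
    let I : Ideal D :=
      { carrier := {d | ∃ z : D0, z ≠ 0 ∧ c ∣ d * z}
        add_mem' := by
          rintro a b ⟨z, hz, h1⟩ ⟨w, hw, h2⟩
          refine ⟨z * w, mul_ne_zero hz hw, ?_⟩
          have : (a + b) * ((z * w : D0) : D) = (a * z) * w + (b * w) * z := by push_cast; ring
          rw [this]
          exact dvd_add (h1.mul_right _) (h2.mul_right _)
        zero_mem' := ⟨1, one_ne_zero, by simp⟩
        smul_mem' := by
          rintro x a ⟨z, hz, h1⟩
          refine ⟨z, hz, ?_⟩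
          rw [smul_eq_mul, mul_assoc]
          exact h1.mul_left _ }
    have hI : I = ⊤ := by
      by_contra hne
      obtain ⟨P, hP, hIP⟩ := Ideal.exists_le_maximal I hne
      have hcI : c ∈ I := ⟨1, one_ne_zero, by simp⟩
      have hcP : c ∈ P := hIP hcI
      have := hdvr P
      have := hfin P hP
      -- a nonzero element of `D0` in `P`
      obtain ⟨x, y, hxy, hxy'⟩ := Finite.exists_ne_map_eq_of_infinite
        (fun x : D0 => Ideal.Quotient.mk P (x : D))
      have hxyP : ((x - y : D0) : D) ∈ P := by
        rw [← Ideal.Quotient.eq_zero_iff_mem]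
        push_cast
        rw [map_sub, hxy', sub_self]
      have hxy0 : x - y ≠ 0 := sub_ne_zero.mpr hxy
      set w : D0 := x - y with hw
      -- powers of `w` are divisible by `c` locally
      have hcne : IsDiscreteValuationRing.addVal (Localization.AtPrime P)
          (algebraMap D (Localization.AtPrime P) c) ≠ ⊤ := by
        rw [Ne, IsDiscreteValuationRing.addVal_eq_top_iff]
        intro h
        exact hc0 (hinj P (by rw [h, map_zero]))
      obtain ⟨k, hk⟩ := ENat.ne_top_iff_exists.mp hcne
      have hw1 : 1 ≤ IsDiscreteValuationRing.addVal (Localization.AtPrime P)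
          (algebraMap D (Localization.AtPrime P) (w : D)) := by
        rw [Order.one_le_iff_ne_zero, Ne, IsDiscreteValuationRing.addVal_eq_zero_iff]
        intro hu
        rw [IsLocalization.AtPrime.isUnit_to_map_iff (Localization.AtPrime P) P] at hu
        exact hu hxyP
      have hdvd : algebraMap D (Localization.AtPrime P) c ∣
          algebraMap D (Localization.AtPrime P) ((w : D) ^ k) := by
        rw [← IsDiscreteValuationRing.addVal_le_iff_dvd, ← hk, map_pow,
          IsDiscreteValuationRing.addVal_pow]
        calc (k : ℕ∞) = k • (1 : ℕ∞) := by simp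
          _ ≤ _ := by gcongr
      obtain ⟨q, hq⟩ := hdvd
      obtain ⟨a, s, hq'⟩ := IsLocalization.exists_mk'_eq P.primeCompl q
      have hs : (s : D) ∈ I := by
        refine ⟨w ^ k, pow_ne_zero _ hxy0, a, ?_⟩
        apply hinj P
        rw [map_mul, map_mul]
        have h1 := IsLocalization.mk'_spec (Localization.AtPrime P) a s
        rw [hq'] at h1
        rw [← h1]
        have h2 : algebraMap D (Localization.AtPrime P) ((w ^ k : D0) : D) =
            algebraMap D (Localization.AtPrime P) c * q := by
          rw [← hq]; push_cast; rfl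
        rw [h2]; ring
      exact s.2 (hIP hs)
    have h1 : (1 : D) ∈ I := by rw [hI]; trivial
    obtain ⟨z, hz, h⟩ := h1
    exact ⟨z, hz, by rwa [one_mul] at h⟩
  -- bounds for `z`
  have hbz : ∀ z : D0, z ≠ 0 → ∃ m : ℕ, ∀ (P : Ideal D) [P.IsMaximal],
      (haveI := hdvr P; IsDiscreteValuationRing.addVal (Localization.AtPrime P)
        (algebraMap D _ (z : D)) ≤ m) ∧ ((z : D) ∈ P → Nat.card (D ⧸ P) ≤ m) := by
    have hnot : ∀ (x : D) (P : Ideal D) [P.IsMaximal], x ∉ P →
        (haveI := hdvr P; IsDiscreteValuationRing.addVal (Localization.AtPrime P)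
          (algebraMap D _ x) = 0) := by
      intro x P _ hx
      have := hdvr P
      rw [IsDiscreteValuationRing.addVal_eq_zero_iff]
      exact (IsLocalization.AtPrime.isUnit_to_map_iff (Localization.AtPrime P) P x).mpr hx
    intro z
    induction z using UniqueFactorizationMonoid.induction_on_prime with
    | h₁ => intro h; exact absurd rfl h
    | h₂ x hx =>
      intro _
      refine ⟨0, ?_⟩
      intro P hP
      have hxP : (x : D) ∉ P := by
        intro h
        have : IsUnit (x : D) := hx.map D0.subtype
        exact hP.ne_top (Ideal.eq_top_of_isUnit_mem P h this)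
      refine ⟨?_, fun h => absurd h hxP⟩
      rw [hnot x P hxP]; simp
    | h₃ a p ha hp ih =>
      intro _
      obtain ⟨m, hm⟩ := ih ha
      obtain ⟨m', hm'⟩ := hb p hp
      refine ⟨m + m', ?_⟩
      intro P hP
      have := hdvr P
      obtain ⟨h1, h2⟩ := hm P
      have h3 : IsDiscreteValuationRing.addVal (Localization.AtPrime P)
          (algebraMap D _ (p : D)) ≤ m' := by
        by_cases hpP : (p : D) ∈ P
        · exact (hm' P hpP).1
        · rw [hnot _ P hpP]; exact zero_le
      refine ⟨?_, ?_⟩
      · have h4 : algebraMap D (Localization.AtPrime P) ((p * a : D0) : D) =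
            algebraMap D _ (p : D) * algebraMap D _ (a : D) := by
          rw [← map_mul]; push_cast; rfl
        rw [h4, IsDiscreteValuationRing.addVal_mul, add_comm m m']
        push_cast
        exact add_le_add h3 h1
      · intro h
        have h5 : (p : D) * (a : D) ∈ P := by simpa using h
        rcases hP.isPrime.mem_or_mem h5 with h | h
        · exact ((hm' P h).2).trans (by omega)
        · exact (h2 h).trans (by omega)
  obtain ⟨m, hm⟩ := hbz z hz0
  refine ⟨m, m, hdvr, hfin, ?_, ?_⟩
  · intro P hP hcP
    have := hdvr P
    refine le_trans ?_ (hm P).1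
    rw [IsDiscreteValuationRing.addVal_le_iff_dvd]
    exact map_dvd _ hcz
  · intro P hP hcP
    exact (hm P).2 (P.mem_of_dvd hcz hcP)

end Bounds

section Values

variable {D : Type u} {K : Type v} [CommRing D] [IsDomain D] [Field K] [Algebra D K]
  [IsFractionRing D K]

/-- The value at an integral element of a finite-dimensional algebra of a polynomial which is
integral on all integral elements of degree `≤ n` is integral. -/
theorem isIntegral_aeval {B : Type w} [Ring B] [Nontrivial B] [Algebra K B] [Algebra D B]
    [IsScalarTower D K B] [FiniteDimensional K B] {a : B} (ha : IsIntegral D a) {f : K[X]}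
    (hf : f ∈ IntDeg D K (Module.finrank K B)) : IsIntegral D (aeval a f) := by
  classical
  set χ := minpoly K a with hχ
  have hint : IsIntegral K a := Algebra.IsIntegral.isIntegral a
  have hmon : χ.Monic := minpoly.monic hint
  have hdeg : χ.natDegree ≤ Module.finrank K B := minpoly.natDegree_le a
  let A := AlgebraicClosure K
  set s := (χ.map (algebraMap K A)).roots with hs
  have hroot : ∀ lam ∈ s, aeval lam χ = 0 := by
    intro lam hlam
    have := (mem_roots'.mp hlam).2
    rwa [IsRoot.def, eval_map_algebraMap] at this
  obtain ⟨h, hhm, hha⟩ := ha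
  have hdvd : χ ∣ h.map (algebraMap D K) := by
    apply minpoly.dvd
    rw [aeval_map_algebraMap]; exact hha
  have hlamint : ∀ lam ∈ s, IsIntegral D lam := by
    intro lam hlam
    refine ⟨h, hhm, ?_⟩
    obtain ⟨q, hq⟩ := hdvd
    have h1 : aeval lam (h.map (algebraMap D K)) = 0 := by
      rw [hq, map_mul, hroot lam hlam, zero_mul]
    rw [aeval_map_algebraMap] at h1
    exact h1
  have hfint : ∀ lam ∈ s, IsIntegral D (aeval lam f) := by
    intro lam hlam
    have hK : IsIntegral K lam := Algebra.IsIntegral.isIntegral lam
    have hfd : FiniteDimensional K (IntermediateField.adjoin K {lam}) :=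
      IntermediateField.adjoin.finiteDimensional hK
    have hrank : Module.finrank K (IntermediateField.adjoin K {lam}) ≤ Module.finrank K B := by
      rw [IntermediateField.adjoin.finrank hK]
      refine le_trans ?_ hdeg
      exact natDegree_le_of_dvd (minpoly.dvd K lam (hroot lam hlam)) hmon.ne_zero
    let y : IntermediateField.adjoin K {lam} := IntermediateField.AdjoinSimple.gen K lam
    let ψ : IntermediateField.adjoin K {lam} →ₐ[D] A :=
      (IntermediateField.val (IntermediateField.adjoin K {lam})).restrictScalars D
    have hψ : Function.Injective ψ := (IntermediateField.adjoin K {lam}).val.injective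
    have hψy : ψ y = lam := IntermediateField.AdjoinSimple.coe_gen K lam
    have hy : IsIntegral D y := by
      rw [← isIntegral_algHom_iff ψ hψ, hψy]
      exact hlamint lam hlam
    have h1 := hf (IntermediateField.adjoin K {lam}) hrank y hy
    rw [← isIntegral_algHom_iff ψ hψ] at h1
    have h2 : ψ (aeval y f) = aeval lam f := by
      have := (aeval_algHom_apply (IntermediateField.val (IntermediateField.adjoin K {lam})) y f).symm
      have h3 : aeval (ψ y) f = aeval lam f := by rw [hψy]
      exact this.trans h3
    rwa [h2] at h1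
  -- the monic polynomial
  have hex : ∀ lam : A, ∃ g : D[X], g.Monic ∧ (lam ∈ s → aeval (aeval lam f) g = 0) := by
    intro lam
    by_cases hl : lam ∈ s
    · obtain ⟨g, hg, hg'⟩ := hfint lam hl
      exact ⟨g, hg, fun _ => hg'⟩
    · exact ⟨1, monic_one, fun h => absurd h hl⟩
  choose g hgm hg using hex
  set G : D[X] := ∏ lam ∈ s.toFinset, g lam with hG
  have hGm : G.Monic := monic_prod_of_monic _ _ fun lam _ => hgm lam
  set H : K[X] := (G.map (algebraMap D K)).comp f with hH
  have hHroot : ∀ lam ∈ s, aeval lam H = 0 := by
    intro lam hlam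
    rw [hH, aeval_comp, aeval_map_algebraMap, hG, map_prod]
    exact Finset.prod_eq_zero (Multiset.mem_toFinset.mpr hlam) (hg lam hlam)
  have hprod : χ.map (algebraMap K A) = (s.map fun lam => X - C lam).prod := by
    have hsplit : (χ.map (algebraMap K A)).Splits := IsAlgClosed.splits _
    have := hsplit.eq_prod_roots
    rw [(hmon.map _).leadingCoeff, C_1, one_mul] at this
    exact this
  have hdvd2 : χ ∣ H ^ (Multiset.card s) := by
    rw [← Polynomial.map_dvd_map' (algebraMap K A), hprod, Polynomial.map_pow]
    have h1 : (s.map fun _ => H.map (algebraMap K A)).prod = (H.map (algebraMap K A)) ^ (Multiset.card s) := by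
      rw [Multiset.map_const', Multiset.prod_replicate]
    rw [← h1]
    apply Multiset.prod_dvd_prod_of_dvd
    intro lam hlam
    rw [dvd_iff_isRoot, IsRoot.def, eval_map_algebraMap]
    exact hHroot lam hlam
  refine ⟨G ^ (Multiset.card s), hGm.pow _, ?_⟩
  obtain ⟨q, hq⟩ := hdvd2
  have h1 : aeval a (H ^ (Multiset.card s)) = 0 := by
    rw [hq, map_mul, minpoly.aeval, zero_mul]
  rw [map_pow, hH, aeval_comp, aeval_map_algebraMap, ← map_pow] at h1
  exact h1

end Values

end Pool.Agent.R676.Pruf
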